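import Pool.Agent.helper75.BM.Upper

set_option autoImplicit false

/-!
# The triangle bound through the Euclidean ball is never attained
-/

namespace Pool.Agent.helper75.BM

open scoped ENNReal Pointwise

section PowerMean

variable {d : ℕ}

theorem sq_rpow (y r : ℝ) : (y ^ 2) ^ (r / 2) = |y| ^ r := by
  rw [← sq_abs, ← Real.rpow_natCast, ← Real.rpow_mul (abs_nonneg _)]
  congr 1; push_cast; ring

/-- the Euclidean norm -/
noncomputable def e2 (y : Fin d → ℝ) : ℝ := Real.sqrt (∑ i, y i ^ 2)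

theorem e2_nonneg (y : Fin d → ℝ) : 0 ≤ e2 y := Real.sqrt_nonneg _

theorem e2_rpow (y : Fin d → ℝ) (r : ℝ) : e2 y ^ r = (∑ i, y i ^ 2) ^ (r / 2) := by
  unfold e2
  rw [Real.sqrt_eq_rpow, ← Real.rpow_mul (Finset.sum_nonneg fun i _ => sq_nonneg _)]
  congr 1; ring

theorem nrm_two_eq [Fact ((1 : ℝ≥0∞) ≤ 2)] (y : Fin d → ℝ) : nrm 2 y = e2 y := by
  rw [nrm_eq (by norm_num)]
  unfold e2
  rw [Real.sqrt_eq_rpow]
  simp

variable {p q : ℝ≥0∞} [hp : Fact (1 ≤ p)] [hq : Fact (1 ≤ q)]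

theorem sum_weights (hd : 0 < d) : ∑ _i : Fin d, (1 / d : ℝ) = 1 := by
  rw [Finset.sum_const, Finset.card_univ, Fintype.card_fin, nsmul_eq_mul]
  field_simp

/-- algebra: from Jensen for the sums to norms (small exponent) -/
theorem pm1_aux (hd : 0 < d) {r : ℝ} (hr : 0 < r) (y : Fin d → ℝ) :
    (d : ℝ) * ((∑ i, (1 / d : ℝ) * y i ^ 2) ^ (r / 2)) =
      ((d : ℝ) ^ (1 / r - 1 / 2) * e2 y) ^ r := by
  have hd0 : (0 : ℝ) < d := by exact_mod_cast hd
  rw [Real.mul_rpow (by positivity) (e2_nonneg y), e2_rpow, ← Finset.mul_sum,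
    Real.mul_rpow (by positivity) (Finset.sum_nonneg fun i _ => sq_nonneg _), ← mul_assoc]
  congr 1
  rw [← Real.rpow_mul hd0.le, one_div, Real.inv_rpow hd0.le, ← Real.rpow_neg hd0.le]
  nth_rw 1 [← Real.rpow_one (d : ℝ)]
  rw [← Real.rpow_add hd0]
  congr 1; field_simp; ring

theorem pm1 (hp2 : p < 2) (hd : 0 < d) (y : Fin d → ℝ) :
    nrm p y ≤ (d : ℝ) ^ (1 / p.toReal - 1 / 2) * e2 y := by
  have hpt : p ≠ ⊤ := (hp2.trans ENNReal.ofNat_lt_top).ne
  have hp1 := toReal_ge (p := p) hpt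
  have hp2' : p.toReal < 2 := by
    have := (ENNReal.toReal_lt_toReal hpt (by norm_num)).2 hp2
    simpa using this
  set r := p.toReal with hr
  have hd0 : (0 : ℝ) < d := by exact_mod_cast hd
  have hc := (Real.strictConcaveOn_rpow (p := r / 2) (by linarith) (by linarith)).concaveOn
  have J := hc.le_map_sum (t := Finset.univ) (w := fun _ : Fin d => (1 / d : ℝ))
    (p := fun i => y i ^ 2) (fun _ _ => by positivity) (sum_weights hd)
    (fun i _ => by simp only [Set.mem_Ici]; positivity)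
  simp only [smul_eq_mul, sq_rpow] at J
  rw [← Finset.mul_sum] at J
  rw [← Real.rpow_le_rpow_iff (nrm_nonneg y) (mul_nonneg (by positivity) (e2_nonneg y))
    (by linarith : 0 < r), ← pm1_aux hd (by linarith), hr, nrm_rpow hpt, ← hr]
  have := mul_le_mul_of_nonneg_left J hd0.le
  rwa [← mul_assoc, mul_one_div_cancel hd0.ne', one_mul] at this

theorem pm1_lt (hp2 : p < 2) (hd : 0 < d) (y : Fin d → ℝ) {j k : Fin d} (hjk : |y j| ≠ |y k|) :
    nrm p y < (d : ℝ) ^ (1 / p.toReal - 1 / 2) * e2 y := by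
  have hpt : p ≠ ⊤ := (hp2.trans ENNReal.ofNat_lt_top).ne
  have hp1 := toReal_ge (p := p) hpt
  have hp2' : p.toReal < 2 := by
    have := (ENNReal.toReal_lt_toReal hpt (by norm_num)).2 hp2
    simpa using this
  set r := p.toReal with hr
  have hd0 : (0 : ℝ) < d := by exact_mod_cast hd
  have hc := Real.strictConcaveOn_rpow (p := r / 2) (by linarith) (by linarith)
  have J := hc.lt_map_sum (t := Finset.univ) (w := fun _ : Fin d => (1 / d : ℝ))
    (p := fun i => y i ^ 2) (fun _ _ => by positivity) (sum_weights hd)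
    (fun i _ => by simp only [Set.mem_Ici]; positivity)
    ⟨j, Finset.mem_univ _, k, Finset.mem_univ _, by
      intro h
      exact hjk ((sq_eq_sq_iff_abs_eq_abs _ _).1 h)⟩
  simp only [smul_eq_mul, sq_rpow] at J
  rw [← Finset.mul_sum] at J
  rw [← Real.rpow_lt_rpow_iff (nrm_nonneg y) (mul_nonneg (by positivity) (e2_nonneg y))
    (by linarith : 0 < r), ← pm1_aux hd (by linarith), hr, nrm_rpow hpt, ← hr]
  have := mul_lt_mul_of_pos_left J hd0
  rwa [← mul_assoc, mul_one_div_cancel hd0.ne', one_mul] at this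

theorem pm2 (hq2 : 2 < q) (hd : 0 < d) (y : Fin d → ℝ) :
    e2 y ≤ (d : ℝ) ^ (1 / 2 - (1 / q).toReal) * nrm q y := by
  have hd0 : (0 : ℝ) < d := by exact_mod_cast hd
  by_cases hqt : q = ⊤
  · subst hqt
    have e : (1 / 2 : ℝ) - (1 / (⊤ : ℝ≥0∞)).toReal = 1 / 2 := by simp
    rw [e, ← Real.sqrt_eq_rpow]
    unfold e2
    rw [← Real.sqrt_sq (nrm_nonneg (p := ⊤) y), ← Real.sqrt_mul hd0.le]
    apply Real.sqrt_le_sqrt
    calc ∑ i, y i ^ 2 ≤ ∑ _i : Fin d, nrm ⊤ y ^ 2 := Finset.sum_le_sum fun i _ => by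
          rw [← sq_abs]
          exact pow_le_pow_left₀ (abs_nonneg _) (coord_le y i) 2
      _ = d * nrm ⊤ y ^ 2 := by
          rw [Finset.sum_const, Finset.card_univ, Fintype.card_fin, nsmul_eq_mul]
  · have hq1 := toReal_ge (p := q) hqt
    have hq2' : 2 < q.toReal := by
      have := (ENNReal.toReal_lt_toReal (by norm_num) hqt).2 hq2
      simpa using this
    rw [ENNReal.toReal_div, ENNReal.toReal_one]
    set r := q.toReal with hr
    have hc := convexOn_rpow (p := r / 2) (by linarith)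
    have J := hc.map_sum_le (t := Finset.univ) (w := fun _ : Fin d => (1 / d : ℝ))
      (p := fun i => y i ^ 2) (fun _ _ => by positivity) (sum_weights hd)
      (fun i _ => by simp only [Set.mem_Ici]; positivity)
    simp only [smul_eq_mul, sq_rpow] at J
    have e5 : ∑ i, (1 / d : ℝ) * |y i| ^ r = (1 / d : ℝ) * ∑ i, |y i| ^ r :=
      (Finset.mul_sum _ _ _).symm
    rw [e5] at J
    have h1 := mul_le_mul_of_nonneg_left J hd0.le
    rw [← mul_assoc, mul_one_div_cancel hd0.ne', one_mul, pm1_aux hd (by linarith), hr,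
      ← nrm_rpow hqt, ← hr,
      Real.rpow_le_rpow_iff (mul_nonneg (by positivity) (e2_nonneg y)) (nrm_nonneg y)
        (by linarith : 0 < r)] at h1
    have h2 := mul_le_mul_of_nonneg_left h1 (by positivity : 0 ≤ (d : ℝ) ^ (1 / 2 - 1 / r))
    rw [← mul_assoc, ← Real.rpow_add hd0] at h2
    have e : 1 / 2 - 1 / r + (1 / r - 1 / 2) = 0 := by ring
    rwa [e, Real.rpow_zero, one_mul] at h2

theorem pm2_lt (hq2 : 2 < q) (hd : 0 < d) (y : Fin d → ℝ) {j k : Fin d}
    (hjk : |y j| ≠ |y k|) :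
    e2 y < (d : ℝ) ^ (1 / 2 - (1 / q).toReal) * nrm q y := by
  have hd0 : (0 : ℝ) < d := by exact_mod_cast hd
  by_cases hqt : q = ⊤
  · subst hqt
    have e : (1 / 2 : ℝ) - (1 / (⊤ : ℝ≥0∞)).toReal = 1 / 2 := by simp
    rw [e, ← Real.sqrt_eq_rpow]
    unfold e2
    rw [← Real.sqrt_sq (nrm_nonneg (p := ⊤) y), ← Real.sqrt_mul hd0.le]
    apply Real.sqrt_lt_sqrt (Finset.sum_nonneg fun i _ => sq_nonneg _)
    have hex : ∃ i, |y i| < nrm ⊤ y := by
      by_contra h
      push Not at h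
      have h1 := le_antisymm (coord_le (p := ⊤) y j) (h j)
      have h2 := le_antisymm (coord_le (p := ⊤) y k) (h k)
      exact hjk (h1.trans h2.symm)
    obtain ⟨i0, hi0⟩ := hex
    calc ∑ i, y i ^ 2 < ∑ _i : Fin d, nrm ⊤ y ^ 2 := by
          apply Finset.sum_lt_sum
          · intro i _
            rw [← sq_abs]
            exact pow_le_pow_left₀ (abs_nonneg _) (coord_le y i) 2
          · refine ⟨i0, Finset.mem_univ _, ?_⟩
            rw [← sq_abs]
            exact pow_lt_pow_left₀ hi0 (abs_nonneg _) (by norm_num)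
      _ = d * nrm ⊤ y ^ 2 := by
          rw [Finset.sum_const, Finset.card_univ, Fintype.card_fin, nsmul_eq_mul]
  · have hq1 := toReal_ge (p := q) hqt
    have hq2' : 2 < q.toReal := by
      have := (ENNReal.toReal_lt_toReal (by norm_num) hqt).2 hq2
      simpa using this
    rw [ENNReal.toReal_div, ENNReal.toReal_one]
    set r := q.toReal with hr
    have hc := strictConvexOn_rpow (p := r / 2) (by linarith)
    have J := hc.map_sum_lt (t := Finset.univ) (w := fun _ : Fin d => (1 / d : ℝ))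
      (p := fun i => y i ^ 2) (fun _ _ => by positivity) (sum_weights hd)
      (fun i _ => by simp only [Set.mem_Ici]; positivity)
      ⟨j, Finset.mem_univ _, k, Finset.mem_univ _, by
        intro h
        exact hjk ((sq_eq_sq_iff_abs_eq_abs _ _).1 h)⟩
    simp only [smul_eq_mul, sq_rpow] at J
    have e5 : ∑ i, (1 / d : ℝ) * |y i| ^ r = (1 / d : ℝ) * ∑ i, |y i| ^ r :=
      (Finset.mul_sum _ _ _).symm
    rw [e5] at J
    have h1 := mul_lt_mul_of_pos_left J hd0
    rw [← mul_assoc, mul_one_div_cancel hd0.ne', one_mul, pm1_aux hd (by linarith), hr,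
      ← nrm_rpow hqt, ← hr,
      Real.rpow_lt_rpow_iff (mul_nonneg (by positivity) (e2_nonneg y)) (nrm_nonneg y)
        (by linarith : 0 < r)] at h1
    have h2 := mul_lt_mul_of_pos_left h1 (by positivity : 0 < (d : ℝ) ^ (1 / 2 - 1 / r))
    rw [← mul_assoc, ← Real.rpow_add hd0] at h2
    have e : 1 / 2 - 1 / r + (1 / r - 1 / 2) = 0 := by ring
    rwa [e, Real.rpow_zero, one_mul] at h2

end PowerMean

section Block

variable {d : ℕ} (i j : Fin d)

/-- Rotation by `π/4` (composed with a reflection) in the coordinates `i, j`. -/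
noncomputable def gfun (x : Fin d → ℝ) : Fin d → ℝ := fun k =>
  if k = i then (x i + x j) / Real.sqrt 2 else
    if k = j then (x i - x j) / Real.sqrt 2 else x k

theorem gfun_i (x : Fin d → ℝ) : gfun i j x i = (x i + x j) / Real.sqrt 2 := by
  unfold gfun; rw [if_pos rfl]

theorem gfun_j (hij : i ≠ j) (x : Fin d → ℝ) : gfun i j x j = (x i - x j) / Real.sqrt 2 := by
  unfold gfun; rw [if_neg hij.symm, if_pos rfl]

theorem gfun_of_ne {k : Fin d} (hi : k ≠ i) (hj : k ≠ j) (x : Fin d → ℝ) :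
    gfun i j x k = x k := by
  unfold gfun; rw [if_neg hi, if_neg hj]

theorem gfun_gfun (hij : i ≠ j) (x : Fin d → ℝ) : gfun i j (gfun i j x) = x := by
  have h2 : Real.sqrt 2 * Real.sqrt 2 = 2 := Real.mul_self_sqrt (by norm_num)
  have h0 : Real.sqrt 2 ≠ 0 := by positivity
  ext k
  by_cases hi : k = i
  · subst hi
    rw [gfun_i, gfun_i, gfun_j _ _ hij, ← add_div, div_div, h2]; ring
  · by_cases hj : k = j
    · subst hj
      rw [gfun_j _ _ hij, gfun_i, gfun_j _ _ hij, ← sub_div, div_div, h2]; ring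
    · rw [gfun_of_ne i j hi hj, gfun_of_ne i j hi hj]

/-- `gfun` as a linear equivalence -/
noncomputable def gE (hij : i ≠ j) : (Fin d → ℝ) ≃ₗ[ℝ] (Fin d → ℝ) where
  toFun := gfun i j
  map_add' x y := by
    ext k; unfold gfun; simp only [Pi.add_apply]; split_ifs <;> ring
  map_smul' a x := by
    ext k; unfold gfun
    simp only [Pi.smul_apply, smul_eq_mul, RingHom.id_apply]; split_ifs <;> ring
  invFun := gfun i j
  left_inv := gfun_gfun i j hij
  right_inv := gfun_gfun i j hij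

theorem e2_gfun (hij : i ≠ j) (x : Fin d → ℝ) : e2 (gfun i j x) = e2 x := by
  unfold e2
  congr 1
  rw [← sub_eq_zero, ← Finset.sum_sub_distrib,
    ← Finset.sum_subset (Finset.subset_univ {i, j}), Finset.sum_pair hij, gfun_i,
    gfun_j _ _ hij, div_pow, div_pow, Real.sq_sqrt (by norm_num)]
  · ring
  · intro k _ hk
    rw [Finset.mem_insert, Finset.mem_singleton, not_or] at hk
    rw [gfun_of_ne i j hk.1 hk.2, sub_self]

variable {p q : ℝ≥0∞} [hp : Fact (1 ≤ p)] [hq : Fact (1 ≤ q)]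

theorem nrm_gfun_lt (hp2 : p < 2) (hq2 : 2 < q) (hij : i ≠ j) (x : Fin d → ℝ) (hx : x ≠ 0) :
    nrm p (gfun i j x) < (d : ℝ) ^ ((1 / p).toReal - (1 / q).toReal) * nrm q x := by
  have hd : 0 < d := Fin.pos i
  have hd0 : (0 : ℝ) < d := by exact_mod_cast hd
  have hpt : p ≠ ⊤ := (hp2.trans ENNReal.ofNat_lt_top).ne
  have ep : (1 / p).toReal = 1 / p.toReal := by rw [ENNReal.toReal_div, ENNReal.toReal_one]
  rw [ep]
  have hsplit : (d : ℝ) ^ (1 / p.toReal - (1 / q).toReal) * nrm q x =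
      (d : ℝ) ^ (1 / p.toReal - 1 / 2) * ((d : ℝ) ^ (1 / 2 - (1 / q).toReal) * nrm q x) := by
    rw [← mul_assoc, ← Real.rpow_add hd0]; congr 2; ring
  rw [hsplit]
  have hc : 0 < (d : ℝ) ^ (1 / p.toReal - 1 / 2) := by positivity
  have a1 := pm1 hp2 hd (gfun i j x)
  rw [e2_gfun i j hij] at a1
  have a2 := pm2 hq2 hd x
  by_cases h : ∃ k, |x k| ≠ |x i|
  · obtain ⟨k, hk⟩ := h
    exact a1.trans_lt (mul_lt_mul_of_pos_left (pm2_lt hq2 hd x hk) hc)
  · push Not at h
    have hxi : x i ≠ 0 := by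
      intro h0
      apply hx
      ext k
      have := h k
      rw [h0, abs_zero, abs_eq_zero] at this
      rw [this]; rfl
    have hji := h j
    have hne : |gfun i j x i| ≠ |gfun i j x j| := by
      rw [gfun_i, gfun_j _ _ hij]
      have hs : Real.sqrt 2 ≠ 0 := by positivity
      rw [abs_div, abs_div]
      intro h3
      have h4 : |x i + x j| = |x i - x j| := by
        field_simp at h3
        exact h3
      rcases abs_eq_abs.1 hji with h5 | h5
      · rw [h5, sub_self, abs_zero, abs_eq_zero] at h4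
        apply hxi; linarith
      · rw [h5, add_neg_cancel, abs_zero] at h4
        have := (abs_eq_zero.1 h4.symm)
        apply hxi; linarith
    have a3 := pm1_lt hp2 hd (gfun i j x) hne
    rw [e2_gfun i j hij] at a3
    exact a3.trans_le (mul_le_mul_of_nonneg_left a2 hc.le)

theorem exists_adm (hp2 : p < 2) (hq2 : 2 < q) (hij : i ≠ j) :
    ∃ K : ℝ, Adm (L d p) (L d q) K ∧ K < (d : ℝ) ^ ((1 / p).toReal - (1 / q).toReal) := by
  have h2 : Fact ((1 : ℝ≥0∞) ≤ 2) := ⟨by norm_num⟩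
  let φ : PiLp q (fun _ : Fin d => ℝ) → ℝ := fun x => nrm p (gE i j hij (WithLp.ofLp x))
  have hφ : Continuous φ := by
    have c1 : Continuous fun x : PiLp q (fun _ : Fin d => ℝ) => (WithLp.ofLp x : Fin d → ℝ) :=
      PiLp.continuous_ofLp q _
    have c2 : Continuous (gE i j hij : (Fin d → ℝ) → (Fin d → ℝ)) :=
      (gE i j hij).toLinearMap.continuous_of_finiteDimensional
    have c3 : Continuous fun y : Fin d → ℝ => (WithLp.toLp p y : PiLp p (fun _ : Fin d => ℝ)) :=
      PiLp.continuous_toLp p _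
    exact continuous_norm.comp (c3.comp (c2.comp c1))
  have hne : (Metric.sphere (0 : PiLp q (fun _ : Fin d => ℝ)) 1).Nonempty := by
    refine ⟨WithLp.toLp q (Pi.single i 1), ?_⟩
    rw [mem_sphere_zero_iff_norm]
    have := nrm_two (p := q) hij 1 0
    rw [Pi.single_zero, add_zero] at this
    change nrm q (Pi.single i 1) = 1
    rw [this]
    apply le_antisymm
    · have := N2_le_add (p := q) 1 0; simpa using this
    · have := N2_ge_left (p := q) 1 0; simpa using this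
  obtain ⟨x0, hx0, hmax⟩ := (isCompact_sphere (0 : PiLp q (fun _ : Fin d => ℝ)) 1).exists_isMaxOn
    hne hφ.continuousOn
  rw [mem_sphere_zero_iff_norm] at hx0
  have hx0n : nrm q (WithLp.ofLp x0) = 1 := hx0
  have hx0' : WithLp.ofLp x0 ≠ 0 := by
    intro h
    rw [h, nrm_eq_zero.2 rfl] at hx0n
    norm_num at hx0n
  have hpos : 0 < φ x0 := by
    apply nrm_pos
    intro h
    exact hx0' ((gE i j hij).injective (by rw [h, map_zero]))
  have hbound : ∀ x, nrm p (gE i j hij x) ≤ φ x0 * nrm q x := by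
    intro x
    by_cases hx : x = 0
    · rw [hx, map_zero, nrm_eq_zero.2 rfl, nrm_eq_zero.2 rfl, mul_zero]
    have hq0 : 0 < nrm q x := nrm_pos hx
    have hmem : (WithLp.toLp q ((nrm q x)⁻¹ • x) : PiLp q (fun _ : Fin d => ℝ)) ∈
        Metric.sphere (0 : PiLp q (fun _ : Fin d => ℝ)) 1 := by
      rw [mem_sphere_zero_iff_norm]
      change nrm q ((nrm q x)⁻¹ • x) = 1
      rw [nrm_smul, abs_of_pos (by positivity), inv_mul_cancel₀ hq0.ne']
    have h3 : nrm p (gE i j hij ((nrm q x)⁻¹ • x)) ≤ φ x0 := hmax hmem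
    rw [map_smul, nrm_smul, abs_of_pos (by positivity), inv_mul_le_iff₀ hq0] at h3
    rwa [mul_comm] at h3
  refine ⟨φ x0, adm_of_linear hpos ((gE i j hij).trans
    (LinearEquiv.smulOfNeZero ℝ (Fin d → ℝ) (φ x0)⁻¹ (inv_ne_zero hpos.ne'))) ?_ ?_, ?_⟩
  · intro x
    have e : ((gE i j hij).trans (LinearEquiv.smulOfNeZero ℝ (Fin d → ℝ) (φ x0)⁻¹
        (inv_ne_zero hpos.ne'))) x = (φ x0)⁻¹ • gE i j hij x := rfl
    rw [e, nrm_smul, abs_of_pos (by positivity), inv_mul_le_iff₀ hpos]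
    exact hbound x
  · intro x
    have e : ((gE i j hij).trans (LinearEquiv.smulOfNeZero ℝ (Fin d → ℝ) (φ x0)⁻¹
        (inv_ne_zero hpos.ne'))) x = (φ x0)⁻¹ • gE i j hij x := rfl
    rw [e, nrm_smul, abs_of_pos (by positivity), ← mul_assoc, mul_inv_cancel₀ hpos.ne', one_mul]
    have h4 : nrm q x ≤ nrm 2 x := nrm_anti hq2.le x
    have h5 : nrm 2 (gE i j hij x) ≤ nrm p (gE i j hij x) := nrm_anti hp2.le _
    have h6 : nrm 2 (gE i j hij x) = nrm 2 x := by
      rw [nrm_two_eq, nrm_two_eq]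
      exact e2_gfun i j hij x
    linarith
  · have h7 := nrm_gfun_lt i j hp2 hq2 hij _ hx0'
    rw [hx0n, mul_one] at h7
    exact h7

end Block

section Final

variable {d : ℕ} {p q : ℝ≥0∞} [hp : Fact (1 ≤ p)] [hq : Fact (1 ≤ q)]

theorem adm_log_le (hp2 : p < 2) (hq2 : 2 < q) (hd : 2 ≤ d) {lam : ℝ}
    (h : Adm (L d p) (L d q) lam) : Real.log (val p q) ≤ Real.log lam :=
  Real.log_le_log val_pos (val_le hp2 hq2 hd h)

theorem dBM_le_of_adm (hp2 : p < 2) (hq2 : 2 < q) (hd : 2 ≤ d) {lam : ℝ}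
    (h : Adm (L d p) (L d q) lam) : dBM (L d p) (L d q) ≤ Real.log lam := by
  unfold dBM
  apply csInf_le
  · refine ⟨Real.log (val p q), ?_⟩
    rintro _ ⟨mu, hmu, rfl, hf⟩
    exact adm_log_le hp2 hq2 hd ⟨hmu, hf⟩
  · exact ⟨lam, h.1, rfl, h.2⟩

theorem le_dBM (hp2 : p < 2) (hq2 : 2 < q) (hd : 2 ≤ d) :
    Real.log (val p q) ≤ dBM (L d p) (L d q) := by
  have hij : (⟨0, by omega⟩ : Fin d) ≠ ⟨1, by omega⟩ := by
    intro h; simp at h
  obtain ⟨K, hK, _⟩ := exists_adm _ _ hp2 hq2 hij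
  unfold dBM
  apply le_csInf
  · exact ⟨Real.log K, K, hK.1, rfl, hK.2⟩
  · rintro _ ⟨mu, hmu, rfl, hf⟩
    exact adm_log_le hp2 hq2 hd ⟨hmu, hf⟩

theorem dBM_two (hp2 : p < 2) (hq2 : 2 < q) : dBM (L 2 p) (L 2 q) = Real.log (val p q) :=
  le_antisymm (dBM_le_of_adm hp2 hq2 le_rfl (adm_val hp2 hq2)) (le_dBM hp2 hq2 le_rfl)

theorem dBM_lt (hp2 : p < 2) (hq2 : 2 < q) (hd : 2 ≤ d) :
    dBM (L d p) (L d q) < ((1 / p).toReal - (1 / q).toReal) * Real.log d := by
  have hij : (⟨0, by omega⟩ : Fin d) ≠ ⟨1, by omega⟩ := by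
    intro h; simp at h
  obtain ⟨K, hK, hlt⟩ := exists_adm _ _ hp2 hq2 hij
  have hd0 : (0 : ℝ) < d := by
    have : 0 < d := by omega
    exact_mod_cast this
  refine (dBM_le_of_adm hp2 hq2 hd hK).trans_lt ?_
  rw [← Real.log_rpow hd0]
  exact Real.log_lt_log hK.1 hlt

end Final

end Pool.Agent.helper75.BM
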