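import Pool.Agent.helper75.BM.Norms

set_option autoImplicit false

/-!
# The lower bound
-/

namespace Pool.Agent.helper75.BM

open scoped ENNReal Pointwise

/-- admissible dilation factors -/
def Adm {d : ℕ} (C D : Set (Fin d → ℝ)) (lam : ℝ) : Prop :=
  0 < lam ∧ ∃ f : (Fin d → ℝ) ≃ᵃ[ℝ] (Fin d → ℝ), f '' D ⊆ C ∧ C ⊆ lam • (f '' D)

section

variable {d : ℕ} {p q : ℝ≥0∞} [hp : Fact (1 ≤ p)] [hq : Fact (1 ≤ q)]

/-- from affine maps to linear maps -/
theorem exists_linear {lam : ℝ} (h : Adm (L d p) (L d q) lam) :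
    ∃ A : (Fin d → ℝ) ≃ₗ[ℝ] (Fin d → ℝ), (∀ x, nrm p (A x) ≤ nrm q x) ∧
      ∀ x, nrm q x ≤ lam * nrm p (A x) := by
  obtain ⟨hlam, f, h1, h2⟩ := h
  have hf : ∀ x y, f x - f y = f.linear (x - y) := by
    intro x y
    have := f.toAffineMap.linearMap_vsub x y
    simpa using this.symm
  refine ⟨f.linear, ?_, ?_⟩
  · -- unit ball statement
    have key : ∀ x, nrm q x ≤ 1 → nrm p (f.linear x) ≤ 1 := by
      intro x hx
      have m1 : nrm p (f x) ≤ 1 := mem_L.1 (h1 ⟨x, mem_L.2 hx, rfl⟩)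
      have m2 : nrm p (f (-x)) ≤ 1 := mem_L.1 (h1 ⟨-x, mem_L.2 (by rwa [nrm_neg]), rfl⟩)
      have e : f.linear x = (1 / 2 : ℝ) • (f x + -(f (-x))) := by
        rw [← sub_eq_add_neg, hf, sub_neg_eq_add, ← two_smul ℝ x, map_smul, smul_smul]
        norm_num
      rw [e, nrm_smul, abs_of_pos (by norm_num)]
      have := nrm_add (p := p) (f x) (-(f (-x)))
      rw [nrm_neg] at this
      linarith
    intro x
    by_cases hx : x = 0
    · rw [hx, map_zero, nrm_eq_zero.2 rfl, nrm_eq_zero.2 rfl]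
    have hpos : 0 < nrm q x := nrm_pos hx
    have h3 := key ((nrm q x)⁻¹ • x) (by
      rw [nrm_smul, abs_of_pos (by positivity), inv_mul_cancel₀ hpos.ne'])
    rw [map_smul, nrm_smul, abs_of_pos (by positivity), inv_mul_le_iff₀ hpos, mul_one] at h3
    exact h3
  · have key : ∀ x, nrm p (f.linear x) ≤ 1 → nrm q x ≤ lam := by
      intro x hx
      obtain ⟨_, ⟨z, hz, rfl⟩, e1⟩ := h2 (mem_L.2 hx)
      obtain ⟨_, ⟨w, hw, rfl⟩, e2⟩ := h2 (mem_L.2 (by rwa [nrm_neg] : nrm p (-(f.linear x)) ≤ 1))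
      have e1' : lam • f z = f.linear x := e1
      have e2' : lam • f w = -(f.linear x) := e2
      have e3 : f.linear x = f.linear ((lam / 2) • (z - w)) := by
        rw [map_smul, ← hf, smul_sub]
        have : f.linear x = (1 / 2 : ℝ) • (lam • f z - lam • f w) := by
          rw [e1', e2', sub_neg_eq_add, ← two_smul ℝ (f.linear x), smul_smul]; norm_num
        rw [this, smul_sub, smul_smul, smul_smul]
        congr 2 <;> ring
      have e4 : x = (lam / 2) • (z - w) := f.linear.injective e3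
      rw [e4, nrm_smul, abs_of_pos (by positivity)]
      have h5 := nrm_add (p := q) z (-w)
      rw [nrm_neg, ← sub_eq_add_neg] at h5
      have h6 := mem_L.1 hz
      have h7 := mem_L.1 hw
      nlinarith
    intro x
    by_cases hx : x = 0
    · rw [hx, map_zero, nrm_eq_zero.2 rfl, nrm_eq_zero.2 rfl, mul_zero]
    have hAx : f.linear x ≠ 0 := fun h => hx (f.linear.injective (by rw [h, map_zero]))
    have hpos : 0 < nrm p (f.linear x) := nrm_pos hAx
    have h3 := key ((nrm p (f.linear x))⁻¹ • x) (by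
      rw [map_smul, nrm_smul, abs_of_pos (by positivity), inv_mul_cancel₀ hpos.ne'])
    rw [nrm_smul, abs_of_pos (by positivity), inv_mul_le_iff₀ hpos] at h3
    rwa [mul_comm] at h3

variable {lam : ℝ} {A : (Fin d → ℝ) ≃ₗ[ℝ] (Fin d → ℝ)}

/-- norm of `a e_i + b e_j` -/
theorem nrm_two {i j : Fin d} (hij : i ≠ j) (a b : ℝ) :
    nrm p (Pi.single i a + Pi.single j b : Fin d → ℝ) = N2 p a b := by
  classical
  by_cases h : p = ⊤
  · subst h
    rw [nrm_top]
    unfold N2
    rw [if_pos rfl]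
    apply le_antisymm
    · haveI : Nonempty (Fin d) := ⟨i⟩
      apply ciSup_le
      intro k
      by_cases hk : k = i
      · subst hk
        simp [Pi.single_eq_of_ne hij]
      · by_cases hk2 : k = j
        · subst hk2
          simp [Pi.single_eq_of_ne hk]
        · simp [Pi.single_eq_of_ne hk, Pi.single_eq_of_ne hk2]
    · apply max_le
      · refine le_ciSup_of_le (Set.finite_range _).bddAbove i ?_
        simp [Pi.single_eq_of_ne hij]
      · refine le_ciSup_of_le (Set.finite_range _).bddAbove j ?_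
        simp [Pi.single_eq_of_ne hij.symm]
  · have h1 := toReal_ge h
    rw [nrm_eq h]
    unfold N2
    rw [if_neg h]
    congr 1
    rw [← Finset.sum_subset (Finset.subset_univ {i, j})]
    · rw [Finset.sum_pair hij]
      simp [Pi.single_eq_of_ne hij, Pi.single_eq_of_ne hij.symm]
    · intro k _ hk
      rw [Finset.mem_insert, Finset.mem_singleton, not_or] at hk
      simp [Pi.single_eq_of_ne hk.1, Pi.single_eq_of_ne hk.2,
        Real.zero_rpow (by linarith : p.toReal ≠ 0)]

theorem lowerPhi (hp2 : p < 2) {i j : Fin d} (hij : i ≠ j) (hlam : 0 < lam)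
    (h1 : ∀ x, nrm p (A x) ≤ nrm q x) (h2 : ∀ x, nrm q x ≤ lam * nrm p (A x)) {t : ℝ}
    (ht : 0 ≤ t) (ht1 : t ≤ 1) :
    N2 p (1 + t) (1 - t) ≤ 2 ^ (1 / p.toReal) * lam * N2 q 1 t := by
  have htop : p ≠ ⊤ := (hp2.trans ENNReal.ofNat_lt_top).ne
  set r := p.toReal with hr
  have hr1 : 1 ≤ r := toReal_ge htop
  have hr2 : r ≤ 2 := by
    have := ENNReal.toReal_mono (by norm_num : (2 : ℝ≥0∞) ≠ ⊤) hp2.le
    simpa using this
  set a := A (Pi.single i 1) with ha
  set b := A (Pi.single j 1) with hb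
  -- the two signs
  have s1 : nrm p (a + t • b) ≤ N2 q 1 t := by
    have : a + t • b = A (Pi.single i 1 + Pi.single j t) := by
      rw [map_add, ha, hb, ← map_smul]
      congr 2
      ext k; simp [Pi.single_apply]
    rw [this]
    exact (h1 _).trans (nrm_two hij 1 t).le
  have s2 : nrm p (a - t • b) ≤ N2 q 1 t := by
    have : a - t • b = A (Pi.single i 1 + Pi.single j (-t)) := by
      rw [map_add, ha, hb, ← map_smul, sub_eq_add_neg, ← map_neg]
      congr 2
      ext k; by_cases hk : k = j <;> simp [Pi.single_apply, hk]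
    rw [this]
    refine (h1 _).trans ((nrm_two hij 1 (-t)).le.trans (le_of_eq ?_))
    rw [← N2_abs, abs_neg, N2_abs]
  have s3 : 1 ≤ lam * nrm p a := by
    have := h2 (Pi.single i 1)
    have e : nrm q (Pi.single i (1 : ℝ) : Fin d → ℝ) = 1 := by
      have := nrm_two (p := q) hij 1 0
      rw [Pi.single_zero, add_zero] at this
      rw [this]
      apply le_antisymm
      · have := N2_le_add (p := q) 1 0; simpa using this
      · have := N2_ge_left (p := q) 1 0; simpa using this
    rwa [e] at this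
  have s4 : 1 ≤ lam * nrm p b := by
    have := h2 (Pi.single j 1)
    have e : nrm q (Pi.single j (1 : ℝ) : Fin d → ℝ) = 1 := by
      have := nrm_two (p := q) hij.symm 1 0
      rw [Pi.single_zero, add_zero] at this
      rw [this]
      apply le_antisymm
      · have := N2_le_add (p := q) 1 0; simpa using this
      · have := N2_ge_left (p := q) 1 0; simpa using this
    rwa [e] at this
  -- Hanner summed
  have H : α r t * ∑ k, |a k| ^ r + γ r t * ∑ k, |b k| ^ r ≤
      (∑ k, |(a + t • b) k| ^ r) + ∑ k, |(a - t • b) k| ^ r := by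
    rw [Finset.mul_sum, Finset.mul_sum, ← Finset.sum_add_distrib, ← Finset.sum_add_distrib]
    refine Finset.sum_le_sum fun k _ => ?_
    have := hanner_le hr1 hr2 ht ht1 (a k) (b k)
    simpa using this
  rw [← nrm_rpow htop, ← nrm_rpow htop, ← nrm_rpow htop, ← nrm_rpow htop, ← hr] at H
  have hr0 : 0 < r := by linarith
  have u1 := Real.rpow_le_rpow (nrm_nonneg _) s1 hr0.le
  have u2 := Real.rpow_le_rpow (nrm_nonneg _) s2 hr0.le
  have u3 := Real.rpow_le_rpow zero_le_one s3 hr0.le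
  have u4 := Real.rpow_le_rpow zero_le_one s4 hr0.le
  rw [Real.one_rpow, Real.mul_rpow hlam.le (nrm_nonneg _)] at u3 u4
  have hl : 0 < lam ^ r := Real.rpow_pos_of_pos hlam r
  have ha0 := α_nonneg (r := r) ht ht1
  have hg0 := γ_nonneg hr1 ht ht1
  have key : (1 + t) ^ r + (1 - t) ^ r ≤ 2 * lam ^ r * N2 q 1 t ^ r := by
    rw [← α_γ hr1 ht ht1]
    have v1 : α r t ≤ α r t * (lam ^ r * nrm p a ^ r) := le_mul_of_one_le_right ha0 u3
    have v2 : γ r t ≤ γ r t * (lam ^ r * nrm p b ^ r) := le_mul_of_one_le_right hg0 u4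
    have v3 : lam ^ r * (α r t * nrm p a ^ r + γ r t * nrm p b ^ r) ≤
        lam ^ r * (N2 q 1 t ^ r + N2 q 1 t ^ r) :=
      mul_le_mul_of_nonneg_left (H.trans (add_le_add u1 u2)) hl.le
    nlinarith
  -- take roots
  have e1 : N2 p (1 + t) (1 - t) = ((1 + t) ^ r + (1 - t) ^ r) ^ (1 / r) := by
    unfold N2
    rw [if_neg htop, abs_of_nonneg (by linarith), abs_of_nonneg (by linarith)]
  rw [e1]
  have h0 : 0 ≤ (1 + t) ^ r + (1 - t) ^ r :=
    add_nonneg (Real.rpow_nonneg (by linarith) _) (Real.rpow_nonneg (by linarith) _)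
  refine (Real.rpow_le_rpow h0 key (by positivity)).trans (le_of_eq ?_)
  rw [Real.mul_rpow (by positivity) (Real.rpow_nonneg (N2_nonneg _ _) _),
    Real.mul_rpow (by norm_num) hl.le, ← Real.rpow_mul hlam.le, ← Real.rpow_mul (N2_nonneg _ _),
    mul_one_div_cancel hr0.ne', Real.rpow_one, Real.rpow_one]

theorem lowerPsi (hq2 : 2 < q) (hqt : q ≠ ⊤) {i j : Fin d} (hij : i ≠ j) (hlam : 0 < lam)
    (h1 : ∀ x, nrm p (A x) ≤ nrm q x) (h2 : ∀ x, nrm q x ≤ lam * nrm p (A x)) {t : ℝ}
    (ht : 0 ≤ t) (ht1 : t ≤ 1) :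
    2 ^ (1 / q.toReal) * N2 p 1 t ≤ lam * N2 q (1 + t) (1 - t) := by
  set r := q.toReal with hr
  have hr1 : 1 ≤ r := toReal_ge hqt
  have hr2 : 2 ≤ r := by
    have := ENNReal.toReal_mono hqt hq2.le
    simpa using this
  set a := A.symm (Pi.single i 1) with ha
  set b := A.symm (Pi.single j 1) with hb
  -- the two signs
  have s1 : N2 p 1 t ≤ nrm q (a + t • b) := by
    have : A (a + t • b) = Pi.single i 1 + Pi.single j t := by
      rw [map_add, map_smul, ha, hb, A.apply_symm_apply, A.apply_symm_apply]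
      ext k; simp [Pi.single_apply]
    rw [← nrm_two hij 1 t, ← this]
    exact h1 _
  have s2 : N2 p 1 t ≤ nrm q (a - t • b) := by
    have : A (a - t • b) = Pi.single i 1 + Pi.single j (-t) := by
      rw [map_sub, map_smul, ha, hb, A.apply_symm_apply, A.apply_symm_apply]
      ext k; by_cases hk : k = j <;> simp [Pi.single_apply, hk, sub_eq_add_neg]
    have h3 : N2 p 1 t = N2 p 1 (-t) := by rw [← N2_abs, ← abs_neg t, N2_abs]
    rw [h3, ← nrm_two hij 1 (-t), ← this]
    exact h1 _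
  have s3 : nrm q a ≤ lam := by
    have := h2 a
    rw [ha, A.apply_symm_apply] at this
    have e : nrm p (Pi.single i (1 : ℝ) : Fin d → ℝ) = 1 := by
      have := nrm_two (p := p) hij 1 0
      rw [Pi.single_zero, add_zero] at this
      rw [this]
      apply le_antisymm
      · have := N2_le_add (p := p) 1 0; simpa using this
      · have := N2_ge_left (p := p) 1 0; simpa using this
    rwa [e, mul_one] at this
  have s4 : nrm q b ≤ lam := by
    have := h2 b
    rw [hb, A.apply_symm_apply] at this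
    have e : nrm p (Pi.single j (1 : ℝ) : Fin d → ℝ) = 1 := by
      have := nrm_two (p := p) hij.symm 1 0
      rw [Pi.single_zero, add_zero] at this
      rw [this]
      apply le_antisymm
      · have := N2_le_add (p := p) 1 0; simpa using this
      · have := N2_ge_left (p := p) 1 0; simpa using this
    rwa [e, mul_one] at this
  have H : (∑ k, |(a + t • b) k| ^ r) + ∑ k, |(a - t • b) k| ^ r ≤
      α r t * ∑ k, |a k| ^ r + γ r t * ∑ k, |b k| ^ r := by
    rw [Finset.mul_sum, Finset.mul_sum, ← Finset.sum_add_distrib, ← Finset.sum_add_distrib]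
    refine Finset.sum_le_sum fun k _ => ?_
    have := hanner_ge hr2 ht ht1 (a k) (b k)
    simpa using this
  rw [← nrm_rpow hqt, ← nrm_rpow hqt, ← nrm_rpow hqt, ← nrm_rpow hqt, ← hr] at H
  have hr0 : 0 < r := by linarith
  have u1 := Real.rpow_le_rpow (N2_nonneg _ _) s1 hr0.le
  have u2 := Real.rpow_le_rpow (N2_nonneg _ _) s2 hr0.le
  have u3 := Real.rpow_le_rpow (nrm_nonneg _) s3 hr0.le
  have u4 := Real.rpow_le_rpow (nrm_nonneg _) s4 hr0.le
  have ha0 := α_nonneg (r := r) ht ht1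
  have hg0 := γ_nonneg hr1 ht ht1
  have key : 2 * N2 p 1 t ^ r ≤ lam ^ r * ((1 + t) ^ r + (1 - t) ^ r) := by
    rw [← α_γ hr1 ht ht1]
    have v1 := mul_le_mul_of_nonneg_left u3 ha0
    have v2 := mul_le_mul_of_nonneg_left u4 hg0
    nlinarith
  have e1 : N2 q (1 + t) (1 - t) = ((1 + t) ^ r + (1 - t) ^ r) ^ (1 / r) := by
    unfold N2
    rw [if_neg hqt, abs_of_nonneg (by linarith), abs_of_nonneg (by linarith)]
  rw [e1]
  have h0 : 0 ≤ (1 + t) ^ r + (1 - t) ^ r :=
    add_nonneg (Real.rpow_nonneg (by linarith) _) (Real.rpow_nonneg (by linarith) _)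
  have h3 := Real.rpow_le_rpow (mul_nonneg (by norm_num) (Real.rpow_nonneg (N2_nonneg _ _) _)) key
    (by positivity : 0 ≤ 1 / r)
  rw [Real.mul_rpow (by norm_num) (Real.rpow_nonneg (N2_nonneg _ _) _),
    Real.mul_rpow (Real.rpow_nonneg hlam.le _) h0, ← Real.rpow_mul hlam.le,
    ← Real.rpow_mul (N2_nonneg _ _), mul_one_div_cancel hr0.ne', Real.rpow_one,
    Real.rpow_one] at h3
  exact h3

/-- the ratio in the definition of `val` -/
noncomputable def rat (p q : ℝ≥0∞) (t : ℝ) : ℝ := N2 p (1 + t) (1 - t) / N2 q 1 t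

omit hp in
theorem N2_one_pos (t : ℝ) : 0 < N2 q 1 t :=
  lt_of_lt_of_le (by norm_num) (N2_ge_left (p := q) 1 t)

theorem rat_le_two {t : ℝ} (ht : 0 ≤ t) (ht1 : t ≤ 1) : rat p q t ≤ 2 := by
  unfold rat
  rw [div_le_iff₀ (N2_one_pos t)]
  have h1 := N2_le_add (p := p) (1 + t) (1 - t)
  rw [abs_of_nonneg (by linarith), abs_of_nonneg (by linarith)] at h1
  have h2 := N2_ge_left (p := q) 1 t
  rw [abs_one] at h2
  linarith

theorem rat_bdd : BddAbove (Set.range fun t : Set.Icc (0 : ℝ) 1 => rat p q t) := by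
  refine ⟨2, ?_⟩
  rintro _ ⟨t, rfl⟩
  exact rat_le_two t.2.1 t.2.2

theorem val_eq : val p q = (2 : ℝ) ^ max (-(1 / p).toReal) ((1 / q).toReal - 1) *
    ⨆ t : Set.Icc (0 : ℝ) 1, rat p q t := rfl

theorem rat_le_sup {t : ℝ} (ht : 0 ≤ t) (ht1 : t ≤ 1) :
    rat p q t ≤ ⨆ t : Set.Icc (0 : ℝ) 1, rat p q t :=
  le_ciSup (rat_bdd (p := p) (q := q)) (⟨t, ht, ht1⟩ : Set.Icc (0 : ℝ) 1)

theorem sup_pos : 0 < ⨆ t : Set.Icc (0 : ℝ) 1, rat p q t := by
  refine lt_of_lt_of_le ?_ (rat_le_sup (p := p) (q := q) le_rfl zero_le_one)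
  unfold rat
  refine div_pos ?_ (N2_one_pos _)
  have := N2_ge_left (p := p) (1 + 0) (1 - 0)
  refine lt_of_lt_of_le ?_ this
  norm_num

theorem val_pos : 0 < val p q :=
  mul_pos (Real.rpow_pos_of_pos (by norm_num) _) sup_pos

/-- the lower bound -/
theorem val_le (hp2 : p < 2) (hq2 : 2 < q) (hd : 2 ≤ d) {lam : ℝ}
    (h : Adm (L d p) (L d q) lam) : val p q ≤ lam := by
  obtain ⟨A, h1, h2⟩ := exists_linear h
  have hlam := h.1
  have hij : (⟨0, by omega⟩ : Fin d) ≠ ⟨1, by omega⟩ := by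
    intro h; simp at h
  have htop : p ≠ ⊤ := (hp2.trans ENNReal.ofNat_lt_top).ne
  have hp1 := toReal_ge (p := p) htop
  have ep : (1 / p).toReal = 1 / p.toReal := by
    rw [ENNReal.toReal_div, ENNReal.toReal_one]
  have hne : Nonempty (Set.Icc (0 : ℝ) 1) := ⟨⟨0, le_rfl, zero_le_one⟩⟩
  -- first bound
  have b1 : (2 : ℝ) ^ (-(1 / p).toReal) * (⨆ t : Set.Icc (0 : ℝ) 1, rat p q t) ≤ lam := by
    rw [Real.rpow_neg (by norm_num), inv_mul_le_iff₀ (Real.rpow_pos_of_pos (by norm_num) _)]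
    apply ciSup_le
    intro t
    unfold rat
    rw [div_le_iff₀ (N2_one_pos _), ep]
    exact lowerPhi hp2 hij hlam h1 h2 t.2.1 t.2.2
  have b2 : (2 : ℝ) ^ ((1 / q).toReal - 1) * (⨆ t : Set.Icc (0 : ℝ) 1, rat p q t) ≤ lam := by
    by_cases hqt : q = ⊤
    · refine le_trans ?_ b1
      refine mul_le_mul_of_nonneg_right ?_ sup_pos.le
      apply Real.rpow_le_rpow_of_exponent_le (by norm_num)
      rw [hqt, ep]
      have : 1 / p.toReal ≤ 1 := by rw [div_le_one (by linarith)]; exact hp1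
      simp only [one_div, ENNReal.inv_top, ENNReal.toReal_zero, zero_sub] at this ⊢
      linarith
    · have eq' : (1 / q).toReal = 1 / q.toReal := by
        rw [ENNReal.toReal_div, ENNReal.toReal_one]
      have hpos : (0 : ℝ) < 2 ^ ((1 / q).toReal - 1) := Real.rpow_pos_of_pos (by norm_num) _
      rw [← le_div_iff₀' hpos]
      apply ciSup_le
      intro t
      rw [le_div_iff₀' hpos]
      unfold rat
      -- substitution s = (1-t)/(1+t)
      obtain ⟨t, ht0, ht1⟩ := t
      simp only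
      have h1t : 0 < 1 + t := by linarith
      set s := (1 - t) / (1 + t) with hs
      have hs0 : 0 ≤ s := div_nonneg (by linarith) h1t.le
      have hs1 : s ≤ 1 := by rw [hs, div_le_one h1t]; linarith
      have key := lowerPsi hq2 hqt hij hlam h1 h2 hs0 hs1
      have e1 : N2 p (1 + t) (1 - t) = (1 + t) * N2 p 1 s := by
        have := N2_smul (p := p) (1 + t) 1 s
        rw [abs_of_pos h1t] at this
        rw [← this]
        congr 1
        · ring
        · rw [hs]; field_simp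
      have e2 : (1 + t) * N2 q (1 + s) (1 - s) = 2 * N2 q 1 t := by
        have := N2_smul (p := q) (1 + t) (1 + s) (1 - s)
        rw [abs_of_pos h1t] at this
        rw [← this]
        have h2' := N2_smul (p := q) 2 1 t
        rw [abs_of_pos (by norm_num)] at h2'
        rw [← h2']
        congr 1
        · rw [hs]; field_simp; ring
        · rw [hs]; field_simp; ring
      rw [e1, eq', Real.rpow_sub (by norm_num), Real.rpow_one]
      have hN := N2_one_pos (q := q) t
      rw [div_mul_div_comm, div_le_iff₀ (by positivity)]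
      have := mul_le_mul_of_nonneg_left key h1t.le
      calc 2 ^ (1 / q.toReal) * ((1 + t) * N2 p 1 s)
          = (1 + t) * (2 ^ (1 / q.toReal) * N2 p 1 s) := by ring
        _ ≤ (1 + t) * (lam * N2 q (1 + s) (1 - s)) := this
        _ = lam * ((1 + t) * N2 q (1 + s) (1 - s)) := by ring
        _ = lam * (2 * N2 q 1 t) := by rw [e2]
  rw [val_eq]
  rcases max_cases (-(1 / p).toReal) ((1 / q).toReal - 1) with ⟨h, _⟩ | ⟨h, _⟩
  · rw [h]; exact b1
  · rw [h]; exact b2

end

end Pool.Agent.helper75.BM
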