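import Mathlib

set_option autoImplicit false

/-!
# The bodies `L(d;p)` and the Banach-Mazur distance
-/

namespace Pool.Agent.helper75.BM

open scoped ENNReal Pointwise

/-- The body `L(d;p)`: `∑ |x_i|^p ≤ 1` for `p < ∞`, the cube for `p = ∞`. -/
def L (d : ℕ) (p : ℝ≥0∞) : Set (Fin d → ℝ) :=
  {x | if p = ⊤ then ∀ i, |x i| ≤ 1 else ∑ i, |x i| ^ p.toReal ≤ 1}

/-- The Banach-Mazur distance (logarithmic normalisation): the infimum of `log lam` over all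
`lam > 0` and all invertible affine maps `f` with `f(D) ⊆ C ⊆ lam f(D)`. -/
noncomputable def dBM {d : ℕ} (C D : Set (Fin d → ℝ)) : ℝ :=
  sInf {l : ℝ | ∃ lam : ℝ, 0 < lam ∧ l = Real.log lam ∧
    ∃ f : (Fin d → ℝ) ≃ᵃ[ℝ] (Fin d → ℝ), f '' D ⊆ C ∧ C ⊆ lam • (f '' D)}

/-- The `ℓ_p` norm of the vector `(a, b)`. -/
noncomputable def N2 (p : ℝ≥0∞) (a b : ℝ) : ℝ :=
  if p = ⊤ then max |a| |b| else (|a| ^ p.toReal + |b| ^ p.toReal) ^ (1 / p.toReal)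

/-- The number `2 ^ max(-1/p, 1/q - 1) * sup_{0 ≤ t ≤ 1} ‖(1+t,1-t)‖_p / ‖(1,t)‖_q`. -/
noncomputable def val (p q : ℝ≥0∞) : ℝ :=
  (2 : ℝ) ^ max (-(1 / p).toReal) ((1 / q).toReal - 1) *
    ⨆ t : Set.Icc (0 : ℝ) 1, N2 p (1 + t) (1 - t) / N2 q 1 t

end Pool.Agent.helper75.BM
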