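import Mathlib

set_option autoImplicit false

/-!
# The two-point Hausdorff-Young inequality (bilinear form), by the three lines theorem
-/

namespace Pool.Agent.helper75.BM

open Complex Complex.HadamardThreeLines

/-- The analytic family. -/
noncomputable def FF (X1 X2 Y1 Y2 : ℝ) (z : ℂ) : ℂ :=
  (Y1 : ℂ) ^ z * ((X1 : ℂ) ^ z + (X2 : ℂ) ^ z) + (Y2 : ℂ) ^ z * ((X1 : ℂ) ^ z - (X2 : ℂ) ^ z)

theorem norm_pow_le_one {x : ℝ} (hx : 0 ≤ x) (hx1 : x ≤ 1) {z : ℂ} (hz : 0 < z.re) :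
    ‖(x : ℂ) ^ z‖ ≤ 1 := by
  rw [Complex.norm_cpow_eq_rpow_re_of_nonneg hx hz.ne']
  exact Real.rpow_le_one hx hx1 hz.le

theorem FF_diff (X1 X2 Y1 Y2 : ℝ) {z : ℂ} (hz : z ≠ 0) :
    DifferentiableAt ℂ (FF X1 X2 Y1 Y2) z := by
  have h : ∀ x : ℝ, DifferentiableAt ℂ (fun w : ℂ => (x : ℂ) ^ w) z := fun x =>
    DifferentiableAt.const_cpow differentiableAt_id (Or.inr hz)
  unfold FF
  exact ((h Y1).mul ((h X1).add (h X2))).add ((h Y2).mul ((h X1).sub (h X2)))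

theorem FF_one {X1 X2 Y1 Y2 : ℝ} (hX1 : 0 ≤ X1) (hX2 : 0 ≤ X2) (hY1 : 0 ≤ Y1) (hY2 : 0 ≤ Y2)
    (hX : X1 + X2 = 1) (hY : Y1 + Y2 = 1) {z : ℂ} (hz : z.re = 1) :
    ‖FF X1 X2 Y1 Y2 z‖ ≤ 1 := by
  have hn : ∀ x : ℝ, 0 ≤ x → ‖(x : ℂ) ^ z‖ = x := fun x hx => by
    rw [Complex.norm_cpow_eq_rpow_re_of_nonneg hx (by rw [hz]; norm_num), hz, Real.rpow_one]
  unfold FF
  have h1 : ‖(Y1 : ℂ) ^ z * ((X1 : ℂ) ^ z + (X2 : ℂ) ^ z)‖ ≤ Y1 * (X1 + X2) := by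
    rw [norm_mul, hn _ hY1]
    refine mul_le_mul_of_nonneg_left ((norm_add_le _ _).trans ?_) hY1
    rw [hn _ hX1, hn _ hX2]
  have h2 : ‖(Y2 : ℂ) ^ z * ((X1 : ℂ) ^ z - (X2 : ℂ) ^ z)‖ ≤ Y2 * (X1 + X2) := by
    rw [norm_mul, hn _ hY2]
    refine mul_le_mul_of_nonneg_left ((norm_sub_le _ _).trans ?_) hY2
    rw [hn _ hX1, hn _ hX2]
  calc _ ≤ _ := norm_add_le _ _
    _ ≤ Y1 * (X1 + X2) + Y2 * (X1 + X2) := add_le_add h1 h2
    _ = 1 := by rw [hX, mul_one, mul_one, hY]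

theorem FF_half {X1 X2 Y1 Y2 : ℝ} (hX1 : 0 ≤ X1) (hX2 : 0 ≤ X2) (hY1 : 0 ≤ Y1) (hY2 : 0 ≤ Y2)
    (hX : X1 + X2 = 1) (hY : Y1 + Y2 = 1) {z : ℂ} (hz : z.re = 1 / 2) :
    ‖FF X1 X2 Y1 Y2 z‖ ≤ Real.sqrt 2 := by
  have hn : ∀ x : ℝ, 0 ≤ x → ‖(x : ℂ) ^ z‖ ^ 2 = x := fun x hx => by
    rw [Complex.norm_cpow_eq_rpow_re_of_nonneg hx (by rw [hz]; norm_num), hz,
      ← Real.sqrt_eq_rpow, Real.sq_sqrt hx]
  unfold FF
  set a := (X1 : ℂ) ^ z
  set b := (X2 : ℂ) ^ z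
  set c := (Y1 : ℂ) ^ z
  set d := (Y2 : ℂ) ^ z
  have ha : ‖a‖ ^ 2 = X1 := hn _ hX1
  have hb : ‖b‖ ^ 2 = X2 := hn _ hX2
  have hc : ‖c‖ ^ 2 = Y1 := hn _ hY1
  have hd : ‖d‖ ^ 2 = Y2 := hn _ hY2
  have hpar : ‖a + b‖ ^ 2 + ‖a - b‖ ^ 2 = 2 := by
    have := parallelogram_law_with_norm ℝ a b
    nlinarith
  apply Real.le_sqrt_of_sq_le
  have h1 : ‖c * (a + b) + d * (a - b)‖ ≤ ‖c‖ * ‖a + b‖ + ‖d‖ * ‖a - b‖ := by
    refine (norm_add_le _ _).trans ?_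
    rw [norm_mul, norm_mul]
  have h2 : (‖c‖ * ‖a + b‖ + ‖d‖ * ‖a - b‖) ^ 2 ≤ 2 := by
    nlinarith [sq_nonneg (‖c‖ * ‖a - b‖ - ‖d‖ * ‖a + b‖)]
  exact (pow_le_pow_left₀ (norm_nonneg _) h1 2).trans h2

theorem FF_interp {X1 X2 Y1 Y2 : ℝ} (hX1 : 0 ≤ X1) (hX2 : 0 ≤ X2) (hY1 : 0 ≤ Y1) (hY2 : 0 ≤ Y2)
    (hX : X1 + X2 = 1) (hY : Y1 + Y2 = 1) {s : ℝ} (hs : 1 / 2 ≤ s) (hs1 : s ≤ 1) :
    ‖FF X1 X2 Y1 Y2 (s : ℂ)‖ ≤ 2 ^ (1 - s) := by
  have hne : ∀ z : ℂ, z ∈ verticalClosedStrip (1 / 2) 1 → z ≠ 0 := by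
    intro z hz h0
    rw [h0] at hz
    have := hz.1
    simp only [zero_re] at this
    norm_num at this
  have key := norm_le_interp_of_mem_verticalClosedStrip' (f := FF X1 X2 Y1 Y2) (z := (s : ℂ))
    (a := Real.sqrt 2) (b := 1) (l := 1 / 2) (u := 1) (by norm_num)
    (by exact ⟨by simpa using hs, by simpa using hs1⟩)
    (by
      refine ⟨fun z hz => ?_, ?_⟩
      · have : z ≠ 0 := by
          intro h0
          rw [h0] at hz
          have := hz.1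
          simp only [zero_re] at this
          norm_num at this
        exact (FF_diff _ _ _ _ this).differentiableWithinAt
      · intro z hz
        have : z ≠ 0 := by
          apply hne
          rw [verticalClosedStrip, ← closure_Ioo (by norm_num), ← closure_preimage_re]
          exact hz
        exact (FF_diff _ _ _ _ this).continuousAt.continuousWithinAt)
    (by
      refine ⟨4, ?_⟩
      rintro _ ⟨z, hz, rfl⟩
      have hre : 0 < z.re := lt_of_lt_of_le (by norm_num) hz.1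
      have l1 := norm_pow_le_one hX1 (by linarith) hre
      have l2 := norm_pow_le_one hX2 (by linarith) hre
      have l3 := norm_pow_le_one hY1 (by linarith) hre
      have l4 := norm_pow_le_one hY2 (by linarith) hre
      simp only [Function.comp]
      unfold FF
      refine (norm_add_le _ _).trans ?_
      rw [norm_mul, norm_mul]
      have m1 := norm_add_le ((X1 : ℂ) ^ z) ((X2 : ℂ) ^ z)
      have m2 := norm_sub_le ((X1 : ℂ) ^ z) ((X2 : ℂ) ^ z)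
      have n1 : ‖(Y1 : ℂ) ^ z‖ * ‖(X1 : ℂ) ^ z + (X2 : ℂ) ^ z‖ ≤ 1 * 2 :=
        mul_le_mul l3 (by linarith) (norm_nonneg _) zero_le_one
      have n2 : ‖(Y2 : ℂ) ^ z‖ * ‖(X1 : ℂ) ^ z - (X2 : ℂ) ^ z‖ ≤ 1 * 2 :=
        mul_le_mul l4 (by linarith) (norm_nonneg _) zero_le_one
      linarith)
    (fun z hz => FF_half hX1 hX2 hY1 hY2 hX hY hz)
    (fun z hz => FF_one hX1 hX2 hY1 hY2 hX hY hz)
  rw [Complex.ofReal_re, Real.one_rpow, mul_one, Real.sqrt_eq_rpow, ← Real.rpow_mul (by norm_num)]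
    at key
  refine key.trans (le_of_eq ?_)
  congr 1
  ring

/-- bilinear form of the two-point Hausdorff-Young inequality, exponent `p = 1/s ∈ [1,2]` -/
theorem bilin {x1 x2 y1 y2 p : ℝ} (hp : 1 ≤ p) (hp2 : p ≤ 2) (hx1 : 0 ≤ x1) (hx2 : 0 ≤ x2)
    (hy1 : 0 ≤ y1) (hy2 : 0 ≤ y2) (hx : x1 ^ p + x2 ^ p = 1) (hy : y1 ^ p + y2 ^ p = 1) :
    y1 * (x1 + x2) + y2 * (x1 - x2) ≤ 2 ^ (1 - 1 / p) := by
  have hp0 : p ≠ 0 := by linarith
  have h := FF_interp (Real.rpow_nonneg hx1 p) (Real.rpow_nonneg hx2 p) (Real.rpow_nonneg hy1 p)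
    (Real.rpow_nonneg hy2 p) hx hy (s := 1 / p)
    (by rw [div_le_div_iff₀ (by norm_num) (by linarith)]; linarith)
    (by rw [div_le_one (by linarith)]; exact hp)
  have e : ∀ w : ℝ, 0 ≤ w → ((w ^ p : ℝ) : ℂ) ^ ((1 / p : ℝ) : ℂ) = (w : ℂ) := by
    intro w hw
    rw [← Complex.ofReal_cpow (Real.rpow_nonneg hw p), ← Real.rpow_mul hw, mul_one_div_cancel hp0,
      Real.rpow_one]
  unfold FF at h
  rw [e _ hx1, e _ hx2, e _ hy1, e _ hy2] at h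
  have e2 : (y1 : ℂ) * ((x1 : ℂ) + x2) + (y2 : ℂ) * ((x1 : ℂ) - x2) =
      ((y1 * (x1 + x2) + y2 * (x1 - x2) : ℝ) : ℂ) := by push_cast; ring
  rw [e2, Complex.norm_real, Real.norm_eq_abs] at h
  exact (le_abs_self _).trans h

/-- two-point Hausdorff-Young inequality -/
theorem hausdorff_young {x1 x2 p q : ℝ} (hp : 1 < p) (hp2 : p ≤ 2) (hpq : 1 / p + 1 / q = 1)
    (hq : 1 < q) (hx1 : 0 ≤ x1) (hx2 : 0 ≤ x2) (h21 : x2 ≤ x1) :
    (x1 + x2) ^ q + (x1 - x2) ^ q ≤ 2 * (x1 ^ p + x2 ^ p) ^ (q / p) := by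
  have hp0 : 0 < p := by linarith
  have hq0 : 0 < q := by linarith
  rcases hx1.eq_or_lt with h0 | hx1'
  · have h2 : x2 = 0 := le_antisymm (by rw [h0]; exact h21) hx2
    rw [← h0, h2, add_zero, sub_zero, Real.zero_rpow hq0.ne', Real.zero_rpow hp0.ne', add_zero]
    exact mul_nonneg (by norm_num) (Real.rpow_nonneg le_rfl _)
  set S := (x1 + x2) ^ q + (x1 - x2) ^ q with hS
  have hSpos : 0 < S := add_pos_of_pos_of_nonneg (Real.rpow_pos_of_pos (by linarith) _)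
    (Real.rpow_nonneg (by linarith) _)
  set N := x1 ^ p + x2 ^ p with hN
  have hNpos : 0 < N := add_pos_of_pos_of_nonneg (Real.rpow_pos_of_pos hx1' _)
    (Real.rpow_nonneg hx2 _)
  -- exponents
  have hq1 : (q - 1) * p = q := by
    field_simp at hpq
    linarith
  have hNp : (N ^ (1 / p)) ^ p = N := by
    rw [← Real.rpow_mul hNpos.le, one_div_mul_cancel hp0.ne', Real.rpow_one]
  have hSp : (S ^ (1 / p)) ^ p = S := by
    rw [← Real.rpow_mul hSpos.le, one_div_mul_cancel hp0.ne', Real.rpow_one]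
  have hNN : 0 < N ^ (1 / p) := Real.rpow_pos_of_pos hNpos _
  have hSS : 0 < S ^ (1 / p) := Real.rpow_pos_of_pos hSpos _
  have h := bilin (x1 := x1 / N ^ (1 / p)) (x2 := x2 / N ^ (1 / p))
    (y1 := (x1 + x2) ^ (q - 1) / S ^ (1 / p)) (y2 := (x1 - x2) ^ (q - 1) / S ^ (1 / p))
    hp.le hp2 (by positivity) (by positivity) (by positivity)
    (div_nonneg (Real.rpow_nonneg (by linarith) _) hSS.le)
    (by rw [Real.div_rpow hx1 hNN.le, Real.div_rpow hx2 hNN.le, hNp, ← add_div, ← hN,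
      div_self hNpos.ne'])
    (by
      rw [Real.div_rpow (Real.rpow_nonneg (by linarith) _) hSS.le,
        Real.div_rpow (Real.rpow_nonneg (by linarith) _) hSS.le, hSp,
        ← Real.rpow_mul (by linarith), ← Real.rpow_mul (by linarith), hq1, ← add_div, ← hS,
        div_self hSpos.ne'])
  have e1 : (x1 + x2) ^ (q - 1) * (x1 + x2) = (x1 + x2) ^ q := by
    rw [← Real.rpow_add_one (by linarith)]; congr 1; ring
  have e2 : (x1 - x2) ^ (q - 1) * (x1 - x2) = (x1 - x2) ^ q := by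
    rcases h21.eq_or_lt with h3 | h3
    · rw [h3, sub_self, mul_zero, Real.zero_rpow hq0.ne']
    · rw [← Real.rpow_add_one (by linarith)]; congr 1; ring
  have e3 : (x1 + x2) ^ (q - 1) / S ^ (1 / p) * (x1 / N ^ (1 / p) + x2 / N ^ (1 / p)) +
      (x1 - x2) ^ (q - 1) / S ^ (1 / p) * (x1 / N ^ (1 / p) - x2 / N ^ (1 / p)) =
      S / (S ^ (1 / p) * N ^ (1 / p)) := by
    have hS' : S / (S ^ (1 / p) * N ^ (1 / p)) = ((x1 + x2) ^ (q - 1) * (x1 + x2) +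
        (x1 - x2) ^ (q - 1) * (x1 - x2)) / (S ^ (1 / p) * N ^ (1 / p)) := by rw [e1, e2]
    rw [hS']
    field_simp
  rw [e3, div_le_iff₀ (by positivity)] at h
  -- `S ≤ 2^(1-1/p) S^(1/p) N^(1/p)`
  have hq' : 1 - 1 / p = 1 / q := by linarith
  rw [hq'] at h
  have h5 : S ^ (1 / q) ≤ 2 ^ (1 / q) * N ^ (1 / p) := by
    have hsp : S = S ^ (1 / q) * S ^ (1 / p) := by
      rw [← Real.rpow_add hSpos, add_comm (1 / q), hpq, Real.rpow_one]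
    have h6 : S ^ (1 / q) * S ^ (1 / p) ≤ 2 ^ (1 / q) * N ^ (1 / p) * S ^ (1 / p) := by
      rw [← hsp]
      calc S ≤ _ := h
        _ = _ := by ring
    exact le_of_mul_le_mul_right h6 hSS
  have h7 := Real.rpow_le_rpow (Real.rpow_nonneg hSpos.le _) h5 hq0.le
  rw [← Real.rpow_mul hSpos.le, one_div_mul_cancel hq0.ne', Real.rpow_one,
    Real.mul_rpow (by positivity) hNN.le, ← Real.rpow_mul (by norm_num),
    one_div_mul_cancel hq0.ne', Real.rpow_one, ← Real.rpow_mul hNpos.le] at h7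
  calc S ≤ _ := h7
    _ = _ := by congr 2; ring

end Pool.Agent.helper75.BM
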