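import Mathlib

set_option autoImplicit false

/-!
# Scalar inequalities: two-point Hanner and Hausdorff-Young inequalities
-/

namespace Pool.Agent.helper75.BM

open Real Set

/-! ### Hanner -/

/-- increments of concave functions decrease -/
theorem concave_incr {f : ℝ → ℝ} {S : Set ℝ} (hf : ConcaveOn ℝ S f) {x y h : ℝ} (hx : x ∈ S)
    (hyh : y + h ∈ S) (hxy : x ≤ y) (hh : 0 < h) : f (y + h) - f y ≤ f (x + h) - f x := by
  have hpos : 0 < y - x + h := by linarith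
  set w := (y - x) / (y - x + h) with hw
  have hw0 : 0 ≤ w := div_nonneg (by linarith) hpos.le
  have hw1 : w ≤ 1 := by rw [hw, div_le_one hpos]; linarith
  have hwm : w * (y - x + h) = y - x := by rw [hw]; field_simp
  have e1 := hf.2 hx hyh (by linarith : (0 : ℝ) ≤ 1 - w) hw0 (by ring)
  have e2 := hf.2 hx hyh hw0 (by linarith : (0 : ℝ) ≤ 1 - w) (by ring)
  simp only [smul_eq_mul] at e1 e2
  have a1 : (1 - w) * x + w * (y + h) = y := by linear_combination hwm
  have a2 : w * x + (1 - w) * (y + h) = x + h := by linear_combination -hwm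
  rw [a1] at e1
  rw [a2] at e2
  linarith

theorem convex_incr {f : ℝ → ℝ} {S : Set ℝ} (hf : ConvexOn ℝ S f) {x y h : ℝ} (hx : x ∈ S)
    (hyh : y + h ∈ S) (hxy : x ≤ y) (hh : 0 < h) : f (x + h) - f x ≤ f (y + h) - f y := by
  have := concave_incr hf.neg hx hyh hxy hh
  simp only [Pi.neg_apply] at this
  linarith

/-- `β r x = ((1+x)^(r-1) - (1-x)^(r-1)) / x^(r-1)` -/
noncomputable def β (r x : ℝ) : ℝ := ((1 + x) ^ (r - 1) - (1 - x) ^ (r - 1)) / x ^ (r - 1)

theorem β_eq {r x : ℝ} (hx : 0 < x) (hx1 : x ≤ 1) :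
    β r x = ((x⁻¹ - 1) + 2) ^ (r - 1) - (x⁻¹ - 1) ^ (r - 1) := by
  unfold β
  have h1 : (x⁻¹ - 1) + 2 = (1 + x) / x := by field_simp; ring
  have h2 : x⁻¹ - 1 = (1 - x) / x := by field_simp
  rw [h1, h2, div_rpow (by linarith) hx.le, div_rpow (by linarith) hx.le]
  ring

theorem β_mono {r : ℝ} (hr : 1 ≤ r) (hr2 : r ≤ 2) {x y : ℝ} (hx : 0 < x) (hxy : x ≤ y)
    (hy : y ≤ 1) : β r x ≤ β r y := by
  have hy0 : 0 < y := lt_of_lt_of_le hx hxy
  rw [β_eq hx (hxy.trans hy), β_eq hy0 hy]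
  have hc : ConcaveOn ℝ (Set.Ici (0 : ℝ)) fun s : ℝ => s ^ (r - 1) :=
    Real.concaveOn_rpow (by linarith) (by linarith)
  have i1 : 1 ≤ y⁻¹ := (one_le_inv₀ hy0).2 hy
  have i2 : y⁻¹ ≤ x⁻¹ := inv_anti₀ hx hxy
  exact concave_incr hc (x := y⁻¹ - 1) (y := x⁻¹ - 1) (h := 2)
    (by simp only [Set.mem_Ici]; linarith) (by simp only [Set.mem_Ici]; linarith)
    (by linarith) (by norm_num)

theorem β_anti {r : ℝ} (hr2 : 2 ≤ r) {x y : ℝ} (hx : 0 < x) (hxy : x ≤ y)
    (hy : y ≤ 1) : β r y ≤ β r x := by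
  have hy0 : 0 < y := lt_of_lt_of_le hx hxy
  rw [β_eq hx (hxy.trans hy), β_eq hy0 hy]
  have hc : ConvexOn ℝ (Set.Ici (0 : ℝ)) fun s : ℝ => s ^ (r - 1) :=
    convexOn_rpow (by linarith)
  have i1 : 1 ≤ y⁻¹ := (one_le_inv₀ hy0).2 hy
  have i2 : y⁻¹ ≤ x⁻¹ := inv_anti₀ hx hxy
  exact convex_incr hc (x := y⁻¹ - 1) (y := x⁻¹ - 1) (h := 2)
    (by simp only [Set.mem_Ici]; linarith) (by simp only [Set.mem_Ici]; linarith)
    (by linarith) (by norm_num)

theorem β_mul {r x : ℝ} (hx : 0 < x) :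
    β r x * x ^ (r - 1) = (1 + x) ^ (r - 1) - (1 - x) ^ (r - 1) := by
  unfold β
  have : x ^ (r - 1) ≠ 0 := (rpow_pos_of_pos hx _).ne'
  field_simp

noncomputable def α (r x : ℝ) : ℝ := (1 + x) ^ (r - 1) + (1 - x) ^ (r - 1)

theorem rpow_sub_one_mul {r y : ℝ} (hr : 1 ≤ r) (hy : 0 ≤ y) : y ^ (r - 1) * y = y ^ r := by
  rcases hy.eq_or_lt with rfl | hy
  · rw [mul_zero, zero_rpow (by linarith)]
  · rw [← rpow_add_one hy.ne']; congr 1; ring

theorem α_β {r x : ℝ} (hr : 1 ≤ r) (hx : 0 < x) (hx1 : x ≤ 1) :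
    α r x + β r x * x ^ r = (1 + x) ^ r + (1 - x) ^ r := by
  have h1 : β r x * x ^ r = ((1 + x) ^ (r - 1) - (1 - x) ^ (r - 1)) * x := by
    rw [← rpow_sub_one_mul hr hx.le, ← mul_assoc, β_mul hx]
  rw [h1, ← rpow_sub_one_mul hr (by linarith : (0 : ℝ) ≤ 1 + x),
    ← rpow_sub_one_mul hr (by linarith : (0 : ℝ) ≤ 1 - x)]
  unfold α
  ring

/-- The function whose sign is Hanner's inequality on `[0,1]`. -/
noncomputable def G (r t x : ℝ) : ℝ := (1 + x) ^ r + (1 - x) ^ r - α r t - β r t * x ^ r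

theorem G_self {r t : ℝ} (hr : 1 ≤ r) (ht : 0 < t) (ht1 : t ≤ 1) : G r t t = 0 := by
  unfold G
  rw [← α_β hr ht ht1]; ring

theorem G_cont {r t : ℝ} (hr : 1 ≤ r) : Continuous (G r t) := by
  unfold G
  have h : 0 ≤ r := by linarith
  refine (((Continuous.rpow_const (by fun_prop) fun _ => Or.inr h).add
    (Continuous.rpow_const (by fun_prop) fun _ => Or.inr h)).sub continuous_const).sub
    (continuous_const.mul (Continuous.rpow_const continuous_id fun _ => Or.inr h))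

theorem G_deriv {r t x : ℝ} (hr : 1 ≤ r) (hx : 0 < x) (_hx1 : x < 1) :
    HasDerivAt (G r t) (r * x ^ (r - 1) * (β r x - β r t)) x := by
  have h1 : HasDerivAt (fun y : ℝ => (1 + y) ^ r) (1 * r * (1 + x) ^ (r - 1)) x :=
    ((hasDerivAt_id x).const_add 1).rpow_const (Or.inr hr)
  have h2 : HasDerivAt (fun y : ℝ => (1 - y) ^ r) (-1 * r * (1 - x) ^ (r - 1)) x :=
    ((hasDerivAt_id x).const_sub 1).rpow_const (Or.inr hr)
  have h3 : HasDerivAt (fun y : ℝ => β r t * y ^ r) (β r t * (1 * r * x ^ (r - 1))) x :=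
    ((hasDerivAt_id x).rpow_const (Or.inr hr)).const_mul _
  have h4 := ((h1.add h2).sub_const (α r t)).sub h3
  have e : r * x ^ (r - 1) * (β r x - β r t) =
      1 * r * (1 + x) ^ (r - 1) + -1 * r * (1 - x) ^ (r - 1) -
        β r t * (1 * r * x ^ (r - 1)) := by
    have := β_mul (r := r) hx
    linear_combination r * this
  rw [e]
  exact h4

theorem G_nonneg {r t x : ℝ} (hr : 1 ≤ r) (hr2 : r ≤ 2) (ht : 0 < t) (ht1 : t ≤ 1)
    (hx : 0 ≤ x) (hx1 : x ≤ 1) : 0 ≤ G r t x := by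
  rw [← G_self hr ht ht1]
  rcases le_total x t with hxt | hxt
  · -- antitone on [0,t]
    have : AntitoneOn (G r t) (Set.Icc 0 t) := by
      apply antitoneOn_of_deriv_nonpos (convex_Icc 0 t) (G_cont hr).continuousOn
      · intro y hy
        rw [interior_Icc] at hy
        exact (G_deriv hr hy.1 (hy.2.trans_le ht1)).differentiableAt.differentiableWithinAt
      · intro y hy
        rw [interior_Icc] at hy
        rw [(G_deriv hr hy.1 (hy.2.trans_le ht1)).deriv]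
        have := β_mono hr hr2 hy.1 hy.2.le ht1
        have h0 : 0 ≤ r * y ^ (r - 1) := mul_nonneg (by linarith) (rpow_nonneg hy.1.le _)
        exact mul_nonpos_of_nonneg_of_nonpos h0 (by linarith)
    exact this ⟨hx, hxt⟩ ⟨ht.le, le_rfl⟩ hxt
  · have : MonotoneOn (G r t) (Set.Icc t 1) := by
      apply monotoneOn_of_deriv_nonneg (convex_Icc t 1) (G_cont hr).continuousOn
      · intro y hy
        rw [interior_Icc] at hy
        exact (G_deriv hr (ht.trans hy.1) hy.2).differentiableAt.differentiableWithinAt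
      · intro y hy
        rw [interior_Icc] at hy
        rw [(G_deriv hr (ht.trans hy.1) hy.2).deriv]
        have := β_mono hr hr2 ht hy.1.le hy.2.le
        have h0 : 0 ≤ r * y ^ (r - 1) :=
          mul_nonneg (by linarith) (rpow_nonneg (ht.trans hy.1).le _)
        exact mul_nonneg h0 (by linarith)
    exact this ⟨le_rfl, ht1⟩ ⟨hxt, hx1⟩ hxt

theorem G_nonpos {r t x : ℝ} (hr2 : 2 ≤ r) (ht : 0 < t) (ht1 : t ≤ 1)
    (hx : 0 ≤ x) (hx1 : x ≤ 1) : G r t x ≤ 0 := by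
  have hr : 1 ≤ r := by linarith
  rw [← G_self hr ht ht1]
  rcases le_total x t with hxt | hxt
  · have : MonotoneOn (G r t) (Set.Icc 0 t) := by
      apply monotoneOn_of_deriv_nonneg (convex_Icc 0 t) (G_cont hr).continuousOn
      · intro y hy
        rw [interior_Icc] at hy
        exact (G_deriv hr hy.1 (hy.2.trans_le ht1)).differentiableAt.differentiableWithinAt
      · intro y hy
        rw [interior_Icc] at hy
        rw [(G_deriv hr hy.1 (hy.2.trans_le ht1)).deriv]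
        have := β_anti hr2 hy.1 hy.2.le ht1
        have h0 : 0 ≤ r * y ^ (r - 1) := mul_nonneg (by linarith) (rpow_nonneg hy.1.le _)
        exact mul_nonneg h0 (by linarith)
    exact this ⟨hx, hxt⟩ ⟨ht.le, le_rfl⟩ hxt
  · have : AntitoneOn (G r t) (Set.Icc t 1) := by
      apply antitoneOn_of_deriv_nonpos (convex_Icc t 1) (G_cont hr).continuousOn
      · intro y hy
        rw [interior_Icc] at hy
        exact (G_deriv hr (ht.trans hy.1) hy.2).differentiableAt.differentiableWithinAt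
      · intro y hy
        rw [interior_Icc] at hy
        rw [(G_deriv hr (ht.trans hy.1) hy.2).deriv]
        have := β_anti hr2 ht hy.1.le hy.2.le
        have h0 : 0 ≤ r * y ^ (r - 1) :=
          mul_nonneg (by linarith) (rpow_nonneg (ht.trans hy.1).le _)
        exact mul_nonpos_of_nonneg_of_nonpos h0 (by linarith)
    exact this ⟨le_rfl, ht1⟩ ⟨hxt, hx1⟩ hxt

theorem β_one_le_α_one (r : ℝ) : β r 1 ≤ α r 1 := by
  unfold α β
  rw [one_rpow, sub_self, div_one]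
  have : (0 : ℝ) ≤ 0 ^ (r - 1) := rpow_nonneg le_rfl _
  linarith

theorem α_one_le_β_one {r : ℝ} (hr : 2 ≤ r) : α r 1 ≤ β r 1 := by
  unfold α β
  rw [one_rpow, sub_self, div_one, zero_rpow (by linarith)]
  linarith

theorem α_add_β_one {r : ℝ} (hr : 1 ≤ r) : α r 1 + β r 1 = 2 ^ r := by
  have h := α_β hr one_pos le_rfl
  rw [one_rpow, sub_self, zero_rpow (by linarith)] at h
  have e : (1 : ℝ) + 1 = 2 := by norm_num
  rw [e] at h
  linarith

theorem inv_eq {r x : ℝ} (hx1 : 1 ≤ x) :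
    (1 + x) ^ r + |1 - x| ^ r = x ^ r * ((1 + x⁻¹) ^ r + (1 - x⁻¹) ^ r) := by
  have hx0 : 0 < x := by linarith
  have hi : 0 ≤ x⁻¹ := by positivity
  have hi1 : x⁻¹ ≤ 1 := inv_le_one_of_one_le₀ hx1
  have e1 : (1 + x) ^ r = x ^ r * (1 + x⁻¹) ^ r := by
    rw [← mul_rpow hx0.le (by linarith)]; congr 1; field_simp; ring
  have e2 : |1 - x| ^ r = x ^ r * (1 - x⁻¹) ^ r := by
    rw [abs_sub_comm, abs_of_nonneg (by linarith), ← mul_rpow hx0.le (by linarith)]
    congr 1; field_simp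
  rw [e1, e2]; ring

theorem xr_inv {r x : ℝ} (hx1 : 1 ≤ x) : x ^ r * x⁻¹ ^ r = 1 := by
  have hx0 : 0 < x := by linarith
  rw [← mul_rpow hx0.le (by positivity), mul_inv_cancel₀ hx0.ne', one_rpow]

/-- `|1 + x|^r + |1 - x|^r` compared with the tangent `α + β x^r`, all `x ≥ 0` -/
theorem hanner_one_le {r t x : ℝ} (hr : 1 ≤ r) (hr2 : r ≤ 2) (ht : 0 < t) (ht1 : t ≤ 1)
    (hx : 0 ≤ x) : α r t + β r t * x ^ r ≤ (1 + x) ^ r + |1 - x| ^ r := by
  rcases le_total x 1 with hx1 | hx1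
  · have h := G_nonneg hr hr2 ht ht1 hx hx1
    unfold G at h
    rw [abs_of_nonneg (by linarith)]
    linarith
  · have hx0 : 0 < x := by linarith
    have hi : 0 ≤ x⁻¹ := by positivity
    have hi1 : x⁻¹ ≤ 1 := inv_le_one_of_one_le₀ hx1
    have h := G_nonneg hr hr2 one_pos le_rfl hi hi1
    have hk := G_nonneg hr hr2 ht ht1 zero_le_one le_rfl
    have hb := β_mono hr hr2 ht ht1 le_rfl
    unfold G at h hk
    rw [one_rpow, sub_self, zero_rpow (by linarith), mul_one, add_zero] at hk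
    have e0 : (1 : ℝ) + 1 = 2 := by norm_num
    rw [e0, ← α_add_β_one hr] at hk
    have hab := β_one_le_α_one r
    have hxr : 1 ≤ x ^ r := one_le_rpow hx1 (by linarith)
    rw [inv_eq hx1]
    have h2 : x ^ r * (α r 1 + β r 1 * x⁻¹ ^ r) ≤ x ^ r * ((1 + x⁻¹) ^ r + (1 - x⁻¹) ^ r) :=
      mul_le_mul_of_nonneg_left (by linarith) (by linarith)
    have h3 : x ^ r * (α r 1 + β r 1 * x⁻¹ ^ r) = α r 1 * x ^ r + β r 1 := by
      have := xr_inv (r := r) hx1
      linear_combination β r 1 * this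
    rw [h3] at h2
    refine le_trans ?_ h2
    nlinarith [mul_nonneg (by linarith : 0 ≤ α r 1 - β r t) (by linarith : 0 ≤ x ^ r - 1)]

theorem hanner_one_ge {r t x : ℝ} (hr2 : 2 ≤ r) (ht : 0 < t) (ht1 : t ≤ 1)
    (hx : 0 ≤ x) : (1 + x) ^ r + |1 - x| ^ r ≤ α r t + β r t * x ^ r := by
  have hr : 1 ≤ r := by linarith
  rcases le_total x 1 with hx1 | hx1
  · have h := G_nonpos hr2 ht ht1 hx hx1
    unfold G at h
    rw [abs_of_nonneg (by linarith)]
    linarith
  · have hx0 : 0 < x := by linarith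
    have hi : 0 ≤ x⁻¹ := by positivity
    have hi1 : x⁻¹ ≤ 1 := inv_le_one_of_one_le₀ hx1
    have h := G_nonpos hr2 one_pos le_rfl hi hi1
    have hk := G_nonpos hr2 ht ht1 zero_le_one le_rfl
    have hb := β_anti hr2 ht ht1 le_rfl
    unfold G at h hk
    rw [one_rpow, sub_self, zero_rpow (by linarith), mul_one, add_zero] at hk
    have e0 : (1 : ℝ) + 1 = 2 := by norm_num
    rw [e0, ← α_add_β_one hr] at hk
    have hab := α_one_le_β_one hr2
    have hxr : 1 ≤ x ^ r := one_le_rpow hx1 (by linarith)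
    rw [inv_eq hx1]
    have h2 : x ^ r * ((1 + x⁻¹) ^ r + (1 - x⁻¹) ^ r) ≤ x ^ r * (α r 1 + β r 1 * x⁻¹ ^ r) :=
      mul_le_mul_of_nonneg_left (by linarith) (by linarith)
    have h3 : x ^ r * (α r 1 + β r 1 * x⁻¹ ^ r) = α r 1 * x ^ r + β r 1 := by
      have := xr_inv (r := r) hx1
      linear_combination β r 1 * this
    rw [h3] at h2
    refine le_trans h2 ?_
    nlinarith [mul_nonneg (by linarith : 0 ≤ β r t - α r 1) (by linarith : 0 ≤ x ^ r - 1)]

/-- `t * ((1+t)^(r-1) - (1-t)^(r-1))` -/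
noncomputable def γ (r t : ℝ) : ℝ := t * ((1 + t) ^ (r - 1) - (1 - t) ^ (r - 1))

theorem α_γ {r t : ℝ} (hr : 1 ≤ r) (ht : 0 ≤ t) (ht1 : t ≤ 1) :
    α r t + γ r t = (1 + t) ^ r + (1 - t) ^ r := by
  rw [← rpow_sub_one_mul hr (by linarith : (0 : ℝ) ≤ 1 + t),
    ← rpow_sub_one_mul hr (by linarith : (0 : ℝ) ≤ 1 - t)]
  unfold α γ
  ring

theorem γ_eq {r t : ℝ} (hr : 1 ≤ r) (ht : 0 < t) : γ r t = β r t * t ^ r := by
  unfold γ
  rw [← β_mul ht, ← rpow_sub_one_mul hr ht.le]; ring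

theorem γ_nonneg {r t : ℝ} (hr : 1 ≤ r) (ht : 0 ≤ t) (ht1 : t ≤ 1) : 0 ≤ γ r t := by
  unfold γ
  refine mul_nonneg ht (sub_nonneg.2 ?_)
  exact rpow_le_rpow (by linarith) (by linarith) (by linarith)

theorem α_nonneg {r t : ℝ} (ht : 0 ≤ t) (ht1 : t ≤ 1) : 0 ≤ α r t :=
  add_nonneg (rpow_nonneg (by linarith) _) (rpow_nonneg (by linarith) _)

/-- two-point Hanner inequality, `1 ≤ r ≤ 2`, nonnegative numbers -/
theorem hanner_le' {r t a b : ℝ} (hr : 1 ≤ r) (hr2 : r ≤ 2) (ht : 0 ≤ t) (ht1 : t ≤ 1)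
    (ha : 0 ≤ a) (hb : 0 ≤ b) :
    α r t * a ^ r + γ r t * b ^ r ≤ |a + t * b| ^ r + |a - t * b| ^ r := by
  have hr0 : r ≠ 0 := by linarith
  rcases ht.eq_or_lt with rfl | ht
  · unfold γ α
    simp only [zero_mul, add_zero, sub_zero, one_rpow]
    rw [abs_of_nonneg ha]; linarith
  rcases ha.eq_or_lt with rfl | ha
  · rw [zero_rpow hr0, mul_zero, zero_add, zero_add, zero_sub, abs_neg,
      abs_of_nonneg (by positivity), γ_eq hr ht, mul_rpow ht.le hb]
    have h1 : β r t ≤ 2 := by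
      have h1 := β_mono hr hr2 ht ht1 le_rfl
      have h2 := β_one_le_α_one r
      have h3 := α_add_β_one hr
      have h4 : (2 : ℝ) ^ r ≤ 2 ^ (2 : ℝ) := rpow_le_rpow_of_exponent_le (by norm_num) hr2
      have h5 : (2 : ℝ) ^ (2 : ℝ) = 4 := by norm_num
      linarith
    nlinarith [mul_nonneg (rpow_nonneg ht.le r) (rpow_nonneg hb r)]
  · have hx : 0 ≤ t * b / a := by positivity
    have h := hanner_one_le hr hr2 ht ht1 hx
    have h2 := mul_le_mul_of_nonneg_right h (rpow_nonneg ha.le r)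
    have e1 : (1 + t * b / a) ^ r * a ^ r = |a + t * b| ^ r := by
      rw [← mul_rpow (by linarith) ha.le, abs_of_nonneg (by positivity)]
      congr 1; field_simp
    have e2 : |1 - t * b / a| ^ r * a ^ r = |a - t * b| ^ r := by
      rw [← mul_rpow (abs_nonneg _) ha.le]
      congr 1
      rw [← abs_of_pos ha, ← abs_mul, abs_of_pos ha]
      congr 1; field_simp
    have e3 : (t * b / a) ^ r * a ^ r = t ^ r * b ^ r := by
      rw [← mul_rpow hx ha.le, ← mul_rpow ht.le hb]; congr 1; field_simp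
    rw [add_mul, add_mul, e1, e2, mul_assoc, e3] at h2
    rw [γ_eq hr ht]
    linarith

theorem hanner_ge' {r t a b : ℝ} (hr2 : 2 ≤ r) (ht : 0 ≤ t) (ht1 : t ≤ 1)
    (ha : 0 ≤ a) (hb : 0 ≤ b) :
    |a + t * b| ^ r + |a - t * b| ^ r ≤ α r t * a ^ r + γ r t * b ^ r := by
  have hr : 1 ≤ r := by linarith
  have hr0 : r ≠ 0 := by linarith
  rcases ht.eq_or_lt with rfl | ht
  · unfold γ α
    simp only [zero_mul, add_zero, sub_zero, one_rpow]
    rw [abs_of_nonneg ha]; linarith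
  rcases ha.eq_or_lt with rfl | ha
  · rw [zero_rpow hr0, mul_zero, zero_add, zero_add, zero_sub, abs_neg,
      abs_of_nonneg (by positivity), γ_eq hr ht, mul_rpow ht.le hb]
    have h1 : 2 ≤ β r t := by
      have h1 := β_anti hr2 ht ht1 le_rfl
      have h2 := α_one_le_β_one hr2
      have h3 := α_add_β_one hr
      have h4 : (2 : ℝ) ^ (2 : ℝ) ≤ 2 ^ r := rpow_le_rpow_of_exponent_le (by norm_num) hr2
      have h5 : (2 : ℝ) ^ (2 : ℝ) = 4 := by norm_num
      linarith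
    nlinarith [mul_nonneg (rpow_nonneg ht.le r) (rpow_nonneg hb r)]
  · have hx : 0 ≤ t * b / a := by positivity
    have h := hanner_one_ge hr2 ht ht1 hx
    have h2 := mul_le_mul_of_nonneg_right h (rpow_nonneg ha.le r)
    have e1 : (1 + t * b / a) ^ r * a ^ r = |a + t * b| ^ r := by
      rw [← mul_rpow (by linarith) ha.le, abs_of_nonneg (by positivity)]
      congr 1; field_simp
    have e2 : |1 - t * b / a| ^ r * a ^ r = |a - t * b| ^ r := by
      rw [← mul_rpow (abs_nonneg _) ha.le]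
      congr 1
      rw [← abs_of_pos ha, ← abs_mul, abs_of_pos ha]
      congr 1; field_simp
    have e3 : (t * b / a) ^ r * a ^ r = t ^ r * b ^ r := by
      rw [← mul_rpow hx ha.le, ← mul_rpow ht.le hb]; congr 1; field_simp
    rw [add_mul, add_mul, e1, e2, mul_assoc, e3] at h2
    rw [γ_eq hr ht]
    linarith

/-- the unordered pair `|a + tb|, |a - tb|` depends only on `|a|`, `|b|` -/
theorem abs_pair {r t : ℝ} (a b : ℝ) :
    abs (a + t * b) ^ r + abs (a - t * b) ^ r =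
      abs (abs a + t * abs b) ^ r + abs (abs a - t * abs b) ^ r := by
  rcases abs_cases a with ⟨h1, _⟩ | ⟨h1, _⟩ <;> rcases abs_cases b with ⟨h2, _⟩ | ⟨h2, _⟩ <;>
    rw [h1, h2]
  · have e1 : a + t * -b = a - t * b := by ring
    have e2 : a - t * -b = a + t * b := by ring
    rw [e1, e2, add_comm]
  · have e1 : -a + t * b = -(a - t * b) := by ring
    have e2 : -a - t * b = -(a + t * b) := by ring
    rw [e1, e2, abs_neg, abs_neg, add_comm]
  · have e1 : -a + t * -b = -(a + t * b) := by ring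
    have e2 : -a - t * -b = -(a - t * b) := by ring
    rw [e1, e2, abs_neg, abs_neg]

theorem hanner_le {r t : ℝ} (hr : 1 ≤ r) (hr2 : r ≤ 2) (ht : 0 ≤ t) (ht1 : t ≤ 1) (a b : ℝ) :
    α r t * |a| ^ r + γ r t * |b| ^ r ≤ |a + t * b| ^ r + |a - t * b| ^ r := by
  rw [abs_pair]
  exact hanner_le' hr hr2 ht ht1 (abs_nonneg _) (abs_nonneg _)

theorem hanner_ge {r t : ℝ} (hr2 : 2 ≤ r) (ht : 0 ≤ t) (ht1 : t ≤ 1) (a b : ℝ) :
    |a + t * b| ^ r + |a - t * b| ^ r ≤ α r t * |a| ^ r + γ r t * |b| ^ r := by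
  rw [abs_pair]
  exact hanner_ge' hr2 ht ht1 (abs_nonneg _) (abs_nonneg _)

end Pool.Agent.helper75.BM
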