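import Pool.Agent.helper75.BM.Defs
import Pool.Agent.helper75.BM.HY
import Pool.Agent.helper75.BM.Scalar

set_option autoImplicit false

/-!
# The norms `ℓ_p^d`
-/

namespace Pool.Agent.helper75.BM

open scoped ENNReal Pointwise

/-- the `ℓ_p` norm -/
noncomputable def nrm {d : ℕ} (p : ℝ≥0∞) [Fact (1 ≤ p)] (x : Fin d → ℝ) : ℝ :=
  ‖(WithLp.toLp p x : PiLp p (fun _ : Fin d => ℝ))‖

section

variable {d : ℕ} {p q : ℝ≥0∞} [hp : Fact (1 ≤ p)] [hq : Fact (1 ≤ q)]

theorem toReal_ge (h : p ≠ ⊤) : 1 ≤ p.toReal := by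
  have h1 := hp.out
  rw [← ENNReal.toReal_one]
  exact ENNReal.toReal_mono h h1

theorem nrm_eq (h : p ≠ ⊤) (x : Fin d → ℝ) :
    nrm p x = (∑ i, |x i| ^ p.toReal) ^ (1 / p.toReal) := by
  unfold nrm
  rw [PiLp.norm_eq_sum (by linarith [toReal_ge h])]
  rfl

theorem nrm_top (x : Fin d → ℝ) : nrm ⊤ x = ⨆ i, |x i| := by
  unfold nrm
  rw [PiLp.norm_eq_ciSup]
  rfl

theorem nrm_nonneg (x : Fin d → ℝ) : 0 ≤ nrm p x := norm_nonneg _

theorem nrm_add (x y : Fin d → ℝ) : nrm p (x + y) ≤ nrm p x + nrm p y := by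
  unfold nrm
  rw [WithLp.toLp_add]
  exact norm_add_le _ _

theorem nrm_smul (c : ℝ) (x : Fin d → ℝ) : nrm p (c • x) = |c| * nrm p x := by
  unfold nrm
  rw [WithLp.toLp_smul, norm_smul, Real.norm_eq_abs]

theorem nrm_neg (x : Fin d → ℝ) : nrm p (-x) = nrm p x := by
  unfold nrm
  rw [WithLp.toLp_neg, norm_neg]

theorem nrm_eq_zero {x : Fin d → ℝ} : nrm p x = 0 ↔ x = 0 := by
  unfold nrm
  rw [norm_eq_zero]
  constructor
  · intro h
    have := congrArg (WithLp.ofLp) h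
    simpa using this
  · rintro rfl; rfl

theorem nrm_pos {x : Fin d → ℝ} (hx : x ≠ 0) : 0 < nrm p x :=
  lt_of_le_of_ne (nrm_nonneg x) fun h => hx (nrm_eq_zero.1 h.symm)

theorem nrm_rpow (h : p ≠ ⊤) (x : Fin d → ℝ) :
    nrm p x ^ p.toReal = ∑ i, |x i| ^ p.toReal := by
  have h1 := toReal_ge h
  rw [nrm_eq h, ← Real.rpow_mul (Finset.sum_nonneg fun i _ => Real.rpow_nonneg (abs_nonneg _) _),
    one_div_mul_cancel (by linarith), Real.rpow_one]

theorem mem_L {x : Fin d → ℝ} : x ∈ L d p ↔ nrm p x ≤ 1 := by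
  unfold L
  rw [Set.mem_setOf_eq]
  split_ifs with h
  · subst h
    rw [nrm_top]
    constructor
    · intro h
      exact Real.iSup_le h zero_le_one
    · intro h i
      exact (le_ciSup (Set.finite_range fun i => |x i|).bddAbove i).trans h
  · have h1 := toReal_ge h
    rw [← nrm_rpow h]
    constructor
    · intro h2
      by_contra h3
      push Not at h3
      have := Real.one_lt_rpow h3 (by linarith : 0 < p.toReal)
      linarith
    · intro h2
      exact Real.rpow_le_one (nrm_nonneg x) h2 (by linarith)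

theorem coord_le (x : Fin d → ℝ) (i : Fin d) : |x i| ≤ nrm p x := by
  by_cases h : p = ⊤
  · subst h
    rw [nrm_top]
    exact le_ciSup (Set.finite_range fun i => |x i|).bddAbove i
  · have h1 := toReal_ge h
    rw [← Real.rpow_le_rpow_iff (abs_nonneg _) (nrm_nonneg x) (by linarith : 0 < p.toReal),
      nrm_rpow h]
    exact Finset.single_le_sum (f := fun i => |x i| ^ p.toReal)
      (fun i _ => Real.rpow_nonneg (abs_nonneg _) _) (Finset.mem_univ i)

theorem nrm_anti (hpq : p ≤ q) (x : Fin d → ℝ) : nrm q x ≤ nrm p x := by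
  by_cases hx : x = 0
  · rw [nrm_eq_zero.2 hx, nrm_eq_zero.2 hx]
  have hpos : 0 < nrm p x := nrm_pos hx
  have key : nrm q ((nrm p x)⁻¹ • x) ≤ 1 := by
    rw [← mem_L]
    have h1 : nrm p ((nrm p x)⁻¹ • x) = 1 := by
      rw [nrm_smul, abs_of_pos (by positivity), inv_mul_cancel₀ hpos.ne']
    set y := (nrm p x)⁻¹ • x
    have hc : ∀ i, |y i| ≤ 1 := fun i => (coord_le y i).trans h1.le
    unfold L
    rw [Set.mem_setOf_eq]
    split_ifs with h
    · exact hc
    · have hp' : p ≠ ⊤ := fun h' => h (top_le_iff.1 (h' ▸ hpq))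
      have h2 : ∑ i, |y i| ^ p.toReal ≤ 1 := by rw [← nrm_rpow hp', h1, Real.one_rpow]
      refine le_trans (Finset.sum_le_sum fun i _ => ?_) h2
      exact Real.rpow_le_rpow_of_exponent_ge' (abs_nonneg _) (hc i)
        (by linarith [toReal_ge (p := p) hp']) (ENNReal.toReal_mono h hpq)
  rw [nrm_smul, abs_of_pos (by positivity)] at key
  rwa [inv_mul_le_iff₀ hpos, mul_one] at key

theorem N2_eq (a b : ℝ) : N2 p a b = nrm p ![a, b] := by
  unfold N2
  split_ifs with h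
  · subst h
    rw [nrm_top]
    apply le_antisymm
    · apply max_le
      · exact le_ciSup_of_le (Set.finite_range _).bddAbove 0 (by simp)
      · exact le_ciSup_of_le (Set.finite_range _).bddAbove 1 (by simp)
    · apply ciSup_le
      intro i
      fin_cases i
      · simp
      · simp
  · rw [nrm_eq h]
    congr 1
    rw [Fin.sum_univ_two]
    simp

theorem N2_abs (a b : ℝ) : N2 p |a| |b| = N2 p a b := by
  unfold N2; simp only [abs_abs]

theorem N2_comm (a b : ℝ) : N2 p a b = N2 p b a := by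
  unfold N2; split_ifs
  · exact max_comm _ _
  · rw [add_comm]

theorem N2_smul (c a b : ℝ) : N2 p (c * a) (c * b) = |c| * N2 p a b := by
  rw [N2_eq, N2_eq, ← nrm_smul]
  congr 1
  ext i; fin_cases i <;> simp

theorem N2_nonneg (a b : ℝ) : 0 ≤ N2 p a b := by rw [N2_eq]; exact nrm_nonneg _

theorem N2_ge_left (a b : ℝ) : |a| ≤ N2 p a b := by
  rw [N2_eq]; simpa using coord_le (p := p) ![a, b] 0

theorem N2_anti (hpq : p ≤ q) (a b : ℝ) : N2 q a b ≤ N2 p a b := by
  rw [N2_eq, N2_eq]; exact nrm_anti hpq _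

theorem N2_le_add (a b : ℝ) : N2 p a b ≤ |a| + |b| := by
  have h1 : N2 p a b ≤ N2 1 a b := by
    haveI : Fact ((1 : ℝ≥0∞) ≤ 1) := ⟨le_rfl⟩
    exact N2_anti hp.out a b
  refine h1.trans (le_of_eq ?_)
  unfold N2
  rw [if_neg ENNReal.one_ne_top]
  simp

theorem N2_add_sub (a b : ℝ) : N2 p (a + b) (a - b) = N2 p (|a| + |b|) (|a| - |b|) := by
  rcases abs_cases a with ⟨h1, _⟩ | ⟨h1, _⟩ <;> rcases abs_cases b with ⟨h2, _⟩ | ⟨h2, _⟩ <;>
    rw [h1, h2]
  · rw [N2_comm]; congr 1; ring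
  · rw [← N2_abs (-a + b), N2_comm, ← abs_neg (-a - b), ← abs_neg (-a + b), N2_abs]
    congr 1 <;> ring
  · rw [← N2_abs (-a + -b), ← abs_neg (-a - -b), ← abs_neg (-a + -b), N2_abs]
    congr 1 <;> ring

end

end Pool.Agent.helper75.BM
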