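import Pool.Agent.helper75.BM.Lower

set_option autoImplicit false

/-!
# The upper bound in dimension two
-/

namespace Pool.Agent.helper75.BM

open scoped ENNReal Pointwise

/-- two-point Hausdorff-Young inequality for all reals -/
theorem hy_real {a b : ℝ} (ha : 1 < a) (ha2 : a ≤ 2) (hab : 1 / a + 1 / b = 1) (hb : 1 < b)
    (u v : ℝ) : (|u + v| ^ b + |u - v| ^ b) ^ (1 / b) ≤
      2 ^ (1 / b) * (|u| ^ a + |v| ^ a) ^ (1 / a) := by
  have hb0 : 0 < b := by linarith
  have ha0 : 0 < a := by linarith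
  have key : |u + v| ^ b + |u - v| ^ b ≤ 2 * (|u| ^ a + |v| ^ a) ^ (b / a) := by
    have h := abs_pair (r := b) (t := 1) u v
    rw [one_mul, one_mul] at h
    rw [h]
    have g1 : 0 ≤ |u| + |v| := by positivity
    rw [abs_of_nonneg g1]
    rcases le_total (|v|) (|u|) with h1 | h1
    · have g2 : 0 ≤ |u| - |v| := by linarith
      rw [abs_of_nonneg g2]
      exact hausdorff_young ha ha2 hab hb (abs_nonneg _) (abs_nonneg _) h1
    · have g2 : 0 ≤ |v| - |u| := by linarith
      rw [abs_sub_comm (|u|), abs_of_nonneg g2, add_comm (|u|), add_comm (|u| ^ a)]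
      exact hausdorff_young ha ha2 hab hb (abs_nonneg _) (abs_nonneg _) h1
  have hn : 0 ≤ |u| ^ a + |v| ^ a :=
    add_nonneg (Real.rpow_nonneg (abs_nonneg _) _) (Real.rpow_nonneg (abs_nonneg _) _)
  have h2 := Real.rpow_le_rpow
    (add_nonneg (Real.rpow_nonneg (abs_nonneg _) _) (Real.rpow_nonneg (abs_nonneg _) _)) key
    (by positivity : 0 ≤ 1 / b)
  rw [Real.mul_rpow (by norm_num) (Real.rpow_nonneg hn _), ← Real.rpow_mul hn] at h2
  have e : b / a * (1 / b) = 1 / a := by field_simp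
  rwa [e] at h2

section

variable {p q : ℝ≥0∞} [hp : Fact (1 ≤ p)] [hq : Fact (1 ≤ q)]

theorem N2_fin (h : p ≠ ⊤) (a b : ℝ) :
    N2 p a b = (|a| ^ p.toReal + |b| ^ p.toReal) ^ (1 / p.toReal) := by
  unfold N2; rw [if_neg h]

/-- `N_q(u+v,u-v) ≤ 2^{1/q} N_p(u,v)` for `q` finite, conjugate exponent of `q` at least `p` -/
theorem hy_B (hp2 : p < 2) (hq2 : 2 < q) (hqt : q ≠ ⊤)
    (hc : 1 - 1 / p.toReal ≤ 1 / q.toReal) (u v : ℝ) :
    N2 q (u + v) (u - v) ≤ 2 ^ (1 / q.toReal) * N2 p u v := by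
  have hpt : p ≠ ⊤ := (hp2.trans ENNReal.ofNat_lt_top).ne
  have hp1 := toReal_ge (p := p) hpt
  have hq2' : 2 < q.toReal := by
    have := (ENNReal.toReal_lt_toReal (by norm_num) hqt).2 hq2
    simpa using this
  -- conjugate exponent
  set b := q.toReal with hb
  set a := b / (b - 1) with ha
  have hb1 : 0 < b - 1 := by linarith
  have ha1 : 1 < a := by rw [ha, lt_div_iff₀ hb1]; linarith
  have ha2 : a ≤ 2 := by rw [ha, div_le_iff₀ hb1]; linarith
  have hab : 1 / a + 1 / b = 1 := by rw [ha]; field_simp; ring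
  have h1 := hy_real ha1 ha2 hab (by linarith) u v
  have h2 : (|u| ^ a + |v| ^ a) ^ (1 / a) ≤ N2 p u v := by
    have hfa : Fact (1 ≤ ENNReal.ofReal a) := ⟨by
      rw [← ENNReal.ofReal_one]; exact ENNReal.ofReal_le_ofReal ha1.le⟩
    have h3 : p ≤ ENNReal.ofReal a := by
      rw [← ENNReal.ofReal_toReal hpt]
      apply ENNReal.ofReal_le_ofReal
      have h4 : 1 / a ≤ 1 / p.toReal := by linarith
      rwa [one_div_le_one_div (by linarith) (by linarith)] at h4
    have h5 := N2_anti (p := p) (q := ENNReal.ofReal a) h3 u v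
    rw [N2_fin ENNReal.ofReal_ne_top, ENNReal.toReal_ofReal (by linarith)] at h5
    exact h5
  rw [N2_fin hqt]
  exact h1.trans (mul_le_mul_of_nonneg_left h2 (by positivity))

theorem hy_A (hp2 : p < 2) (hc : (1 / q).toReal ≤ 1 - 1 / p.toReal) (u v : ℝ) :
    N2 q (u + v) (u - v) ≤ 2 ^ (1 - 1 / p.toReal) * N2 p u v := by
  have hpt : p ≠ ⊤ := (hp2.trans ENNReal.ofNat_lt_top).ne
  have hp1 := toReal_ge (p := p) hpt
  have hp2' : p.toReal < 2 := by
    have := (ENNReal.toReal_lt_toReal hpt (by norm_num)).2 hp2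
    simpa using this
  rcases hp1.eq_or_lt with h1 | h1
  · -- `p = 1`, hence `q = ⊤`
    rw [← h1] at hc ⊢
    rw [one_div_one, sub_self] at hc ⊢
    rw [Real.rpow_zero, one_mul]
    have hqt : q = ⊤ := by
      have h2 : (1 / q).toReal = 0 := le_antisymm hc ENNReal.toReal_nonneg
      rw [ENNReal.toReal_eq_zero_iff] at h2
      rcases h2 with h2 | h2
      · rw [one_div, ENNReal.inv_eq_zero] at h2; exact h2
      · rw [one_div, ENNReal.inv_eq_top] at h2
        exact absurd (h2 ▸ hq.out) (by simp)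
    have e1 : N2 p u v = |u| + |v| := by
      rw [N2_fin hpt, ← h1]; simp
    rw [e1, hqt]
    unfold N2
    rw [if_pos rfl]
    exact max_le (abs_add_le u v) (abs_sub u v)
  · set a := p.toReal with ha
    set b := a / (a - 1) with hb
    have ha1 : 0 < a - 1 := by linarith
    have hb1 : 2 ≤ b := by rw [hb, le_div_iff₀ ha1]; linarith
    have hab : 1 / a + 1 / b = 1 := by rw [hb]; field_simp; ring
    have h3 := hy_real h1 hp2'.le hab (by linarith) u v
    have hfb : Fact (1 ≤ ENNReal.ofReal b) := ⟨by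
      rw [← ENNReal.ofReal_one]; exact ENNReal.ofReal_le_ofReal (by linarith)⟩
    have h4 : ENNReal.ofReal b ≤ q := by
      by_cases hqt : q = ⊤
      · rw [hqt]; exact le_top
      · have hq1 := toReal_ge (p := q) hqt
        rw [← ENNReal.ofReal_toReal hqt]
        apply ENNReal.ofReal_le_ofReal
        rw [ENNReal.toReal_div, ENNReal.toReal_one] at hc
        have h5 : 1 / q.toReal ≤ 1 / b := by linarith
        rwa [one_div_le_one_div (by linarith) (by linarith)] at h5
    have h5 := N2_anti (p := ENNReal.ofReal b) (q := q) h4 (u + v) (u - v)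
    rw [N2_fin ENNReal.ofReal_ne_top, ENNReal.toReal_ofReal (by linarith)] at h5
    have e : 1 - 1 / a = 1 / b := by linarith
    rw [e, N2_fin hpt]
    exact h5.trans h3

theorem hy_all (hp2 : p < 2) (hq2 : 2 < q) (u v : ℝ) :
    N2 q (u + v) (u - v) ≤
      2 ^ (max (-(1 / p).toReal) ((1 / q).toReal - 1) + 1) * N2 p u v := by
  have hpt : p ≠ ⊤ := (hp2.trans ENNReal.ofNat_lt_top).ne
  have ep : (1 / p).toReal = 1 / p.toReal := by rw [ENNReal.toReal_div, ENNReal.toReal_one]
  rcases le_total ((1 / q).toReal - 1) (-(1 / p).toReal) with h | h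
  · rw [max_eq_left h]
    have := hy_A (q := q) hp2 (by rw [ep] at h; linarith) u v
    rw [ep]
    have e : -(1 / p.toReal) + 1 = 1 - 1 / p.toReal := by ring
    rwa [e]
  · rw [max_eq_right h]
    by_cases hqt : q = ⊤
    · -- then `p = 1`
      have h0 : (1 / q).toReal = 0 := by rw [hqt]; simp
      have hp1 := toReal_ge (p := p) hpt
      have := hy_A (q := q) hp2 (by
        rw [h0]
        have : 1 / p.toReal ≤ 1 := by rw [div_le_one (by linarith)]; exact hp1
        linarith) u v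
      refine this.trans (le_of_eq ?_)
      rw [h0, ep] at h
      have h2 : 1 / p.toReal ≤ 1 := by rw [div_le_one (by linarith)]; exact hp1
      have h3 : 1 / p.toReal = 1 := by linarith
      rw [h0, h3]; norm_num
    · have eq' : (1 / q).toReal = 1 / q.toReal := by
        rw [ENNReal.toReal_div, ENNReal.toReal_one]
      have := hy_B hp2 hq2 hqt (by rw [eq', ep] at h; linarith) u v
      rw [eq']
      have e : 1 / q.toReal - 1 + 1 = 1 / q.toReal := by ring
      rwa [e]

/-- `N_p(x+y,x-y) ≤ M N_q(x,y)` -/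
theorem sup_bound (x y : ℝ) : N2 p (x + y) (x - y) ≤
    (⨆ t : Set.Icc (0 : ℝ) 1, rat p q t) * N2 q x y := by
  set M := ⨆ t : Set.Icc (0 : ℝ) 1, rat p q t with hM
  -- case of nonnegative ordered entries
  have key : ∀ a b : ℝ, 0 ≤ b → b ≤ a → N2 p (a + b) (a - b) ≤ M * N2 q a b := by
    intro a b hb hab
    rcases (hb.trans hab).eq_or_lt with h0 | ha
    · have hb0 : b = 0 := le_antisymm (h0 ▸ hab) hb
      rw [← h0, hb0]
      have h1 := N2_le_add (p := p) (0 + 0) (0 - 0)
      simp only [add_zero, sub_zero, abs_zero] at h1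
      have h2 := N2_nonneg (p := q) 0 0
      have h3 := sup_pos (p := p) (q := q)
      rw [← hM] at h3
      simp only [add_zero, sub_zero]
      nlinarith
    · have ht0 : 0 ≤ b / a := div_nonneg hb ha.le
      have ht1 : b / a ≤ 1 := by rw [div_le_one ha]; exact hab
      have h1 := rat_le_sup (p := p) (q := q) ht0 ht1
      unfold rat at h1
      rw [div_le_iff₀ (N2_one_pos _)] at h1
      have e1 := N2_smul (p := p) a (1 + b / a) (1 - b / a)
      have e2 := N2_smul (p := q) a 1 (b / a)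
      rw [abs_of_pos ha] at e1 e2
      have f1 : a * (1 + b / a) = a + b := by field_simp
      have f2 : a * (1 - b / a) = a - b := by field_simp
      have f3 : a * (b / a) = b := by field_simp
      rw [f1, f2] at e1
      rw [mul_one, f3] at e2
      rw [e1, e2]
      calc a * N2 p (1 + b / a) (1 - b / a) ≤ a * (M * N2 q 1 (b / a)) :=
            mul_le_mul_of_nonneg_left h1 ha.le
        _ = M * (a * N2 q 1 (b / a)) := by ring
  rw [N2_add_sub, ← N2_abs (p := q) x y]
  rcases le_total (|y|) (|x|) with h | h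
  · exact key _ _ (abs_nonneg _) h
  · have e : N2 p (|x| + |y|) (|x| - |y|) = N2 p (|y| + |x|) (|y| - |x|) := by
      rw [← N2_abs (p := p) (|x| + |y|), abs_sub_comm, N2_abs, add_comm]
    rw [e, N2_comm (p := q)]
    exact key _ _ (abs_nonneg _) h

/-- The linear map `(x, y) ↦ c (x + y, x - y)`. -/
noncomputable def rotE (c : ℝ) (hc : c ≠ 0) : (Fin 2 → ℝ) ≃ₗ[ℝ] (Fin 2 → ℝ) where
  toFun x := ![c * (x 0 + x 1), c * (x 0 - x 1)]
  map_add' x y := by ext i; fin_cases i <;> simp <;> ring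
  map_smul' a x := by ext i; fin_cases i <;> simp <;> ring
  invFun x := ![(x 0 + x 1) / (2 * c), (x 0 - x 1) / (2 * c)]
  left_inv x := by ext i; fin_cases i <;> simp <;> field_simp <;> ring
  right_inv x := by ext i; fin_cases i <;> simp <;> field_simp <;> ring

theorem rotE_apply (c : ℝ) (hc : c ≠ 0) (x : Fin 2 → ℝ) :
    rotE c hc x = ![c * (x 0 + x 1), c * (x 0 - x 1)] := rfl

theorem nrm_rotE {r : ℝ≥0∞} [Fact (1 ≤ r)] (c : ℝ) (hc : c ≠ 0) (x : Fin 2 → ℝ) :
    nrm r (rotE c hc x) = |c| * N2 r (x 0 + x 1) (x 0 - x 1) := by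
  rw [rotE_apply, ← N2_eq, N2_smul]

/-- admissibility from a linear equivalence -/
theorem adm_of_linear {d : ℕ} {lam : ℝ} (hlam : 0 < lam)
    (A : (Fin d → ℝ) ≃ₗ[ℝ] (Fin d → ℝ)) (h1 : ∀ x, nrm p (A x) ≤ nrm q x)
    (h2 : ∀ x, nrm q x ≤ lam * nrm p (A x)) : Adm (L d p) (L d q) lam := by
  refine ⟨hlam, A.toAffineEquiv, ?_, ?_⟩
  · rintro _ ⟨x, hx, rfl⟩
    rw [mem_L] at hx ⊢
    exact (h1 x).trans hx
  · intro y hy
    rw [mem_L] at hy
    rw [Set.mem_smul_set]
    refine ⟨lam⁻¹ • y, ⟨lam⁻¹ • A.symm y, ?_, ?_⟩, ?_⟩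
    · rw [mem_L, nrm_smul, abs_of_pos (by positivity), inv_mul_le_iff₀ hlam, mul_one]
      refine (h2 _).trans ?_
      rw [A.apply_symm_apply]
      exact mul_le_of_le_one_right hlam.le hy
    · simp
    · rw [smul_smul, mul_inv_cancel₀ hlam.ne', one_smul]

theorem adm_val (hp2 : p < 2) (hq2 : 2 < q) : Adm (L 2 p) (L 2 q) (val p q) := by
  set M := ⨆ t : Set.Icc (0 : ℝ) 1, rat p q t with hM
  have hMpos : 0 < M := sup_pos (p := p) (q := q)
  refine adm_of_linear val_pos (rotE M⁻¹ (by positivity)) ?_ ?_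
  · intro x
    rw [nrm_rotE, abs_of_pos (by positivity), inv_mul_le_iff₀ hMpos]
    have e : nrm q x = N2 q (x 0) (x 1) := by
      rw [N2_eq]; congr 1; ext i; fin_cases i <;> rfl
    rw [e]
    exact sup_bound _ _
  · intro x
    rw [nrm_rotE, abs_of_pos (by positivity), val_eq, ← hM]
    have e : nrm q x = N2 q (x 0) (x 1) := by
      rw [N2_eq]; congr 1; ext i; fin_cases i <;> rfl
    rw [e]
    have h := hy_all hp2 hq2 (x 0 + x 1) (x 0 - x 1)
    have f1 : x 0 + x 1 + (x 0 - x 1) = 2 * x 0 := by ring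
    have f2 : x 0 + x 1 - (x 0 - x 1) = 2 * x 1 := by ring
    rw [f1, f2, N2_smul, abs_of_pos (by norm_num), Real.rpow_add (by norm_num),
      Real.rpow_one] at h
    have h3 : N2 q (x 0) (x 1) ≤ (2 : ℝ) ^ max (-(1 / p).toReal) ((1 / q).toReal - 1) *
        N2 p (x 0 + x 1) (x 0 - x 1) := by linarith
    calc N2 q (x 0) (x 1) ≤ _ := h3
      _ = _ := by field_simp

end

end Pool.Agent.helper75.BM
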